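import Pool.Agent.P8H17.UL.Defs

/-!
# Project UL: the local theorem for unramified `p`-extensions. Statements of the packages
-/

set_option autoImplicit false

open WeierstrassCurve IsLocalRing

namespace Pool.Agent.P8H17.UL

/-! ## Reduction of points, for any valuation ring `A` of any field `L` and any Weierstrass equation `V`
over `A` (the reduction may be singular) -/

/-- the equation over the field -/
abbrev gn {L : Type} [Field L] {A : ValuationSubring L} (V : WeierstrassCurve A) :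
    WeierstrassCurve L := V.map A.subtype

/-- the equation over the residue field -/
abbrev sp {L : Type} [Field L] {A : ValuationSubring L} (V : WeierstrassCurve A) :
    WeierstrassCurve (ResidueField A) := V.map (residue A)

/-- RA: the sum of two integral points with nonsingular reductions that are not opposite -/
def S_RA : Prop := ∀ (L : Type) [Field L] (A : ValuationSubring L) (V : WeierstrassCurve A)
  (x₁ y₁ x₂ y₂ : A) (h₁ : (gn V).toAffine.Nonsingular (x₁ : L) (y₁ : L))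
  (h₂ : (gn V).toAffine.Nonsingular (x₂ : L) (y₂ : L))
  (g₁ : (sp V).toAffine.Nonsingular (residue A x₁) (residue A y₁))
  (g₂ : (sp V).toAffine.Nonsingular (residue A x₂) (residue A y₂)),
  ¬ (residue A x₁ = residue A x₂ ∧
    residue A y₁ = (sp V).toAffine.negY (residue A x₂) (residue A y₂)) →
    ∃ (x₃ y₃ : A) (h₃ : (gn V).toAffine.Nonsingular (x₃ : L) (y₃ : L))
      (g₃ : (sp V).toAffine.Nonsingular (residue A x₃) (residue A y₃)),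
      pt h₁ + pt h₂ = pt h₃ ∧ pt g₁ + pt g₂ = pt g₃

/-- RB: the sum of two integral points with opposite nonsingular reductions -/
def S_RB : Prop := ∀ (L : Type) [Field L] (A : ValuationSubring L) (V : WeierstrassCurve A)
  (x₁ y₁ x₂ y₂ : A) (h₁ : (gn V).toAffine.Nonsingular (x₁ : L) (y₁ : L))
  (h₂ : (gn V).toAffine.Nonsingular (x₂ : L) (y₂ : L)),
  (sp V).toAffine.Nonsingular (residue A x₁) (residue A y₁) →
  (sp V).toAffine.Nonsingular (residue A x₂) (residue A y₂) →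
  residue A x₁ = residue A x₂ →
  residue A y₁ = (sp V).toAffine.negY (residue A x₂) (residue A y₂) →
    pt h₁ + pt h₂ = 0 ∨ ∃ (x₃ y₃ : L) (h₃ : (gn V).toAffine.Nonsingular x₃ y₃),
      x₃ ∉ A ∧ pt h₁ + pt h₂ = pt h₃

/-- RC: the sum of a point which is not integral and of an integral point has the same residues as the
latter (whose reduction may be singular) -/
def S_RC : Prop := ∀ (L : Type) [Field L] (A : ValuationSubring L) (V : WeierstrassCurve A)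
  (x₁ y₁ : L) (x₂ y₂ : A) (h₁ : (gn V).toAffine.Nonsingular x₁ y₁)
  (h₂ : (gn V).toAffine.Nonsingular (x₂ : L) (y₂ : L)), x₁ ∉ A →
    ∃ (x₃ y₃ : A) (h₃ : (gn V).toAffine.Nonsingular (x₃ : L) (y₃ : L)),
      pt h₁ + pt h₂ = pt h₃ ∧ residue A x₃ = residue A x₂ ∧ residue A y₃ = residue A y₂

/-- the coordinates are integral with nonsingular reduction -/
def ResNS {L : Type} [Field L] {A : ValuationSubring L} (V : WeierstrassCurve A) (x y : L) : Prop :=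
  ∃ (x' y' : A), (x' : L) = x ∧ (y' : L) = y ∧
    (sp V).toAffine.Nonsingular (residue A x') (residue A y')

/-- the reduction: the points with nonsingular reduction form a subgroup, and `red` is the
reduction homomorphism -/
structure IsRed {L : Type} [Field L] {A : ValuationSubring L} (V : WeierstrassCurve A)
    (E : AddSubgroup (Pt (gn V))) (red : E →+ Pt (sp V)) : Prop where
  mem : ∀ (x y : L) (h : (gn V).toAffine.Nonsingular x y), pt h ∈ E ↔ (x ∉ A ∨ ResNS V x y)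
  zero : ∀ (x y : L) (h : (gn V).toAffine.Nonsingular x y) (hm : pt h ∈ E), x ∉ A →
    red ⟨pt h, hm⟩ = 0
  some : ∀ (x y : A) (h : (gn V).toAffine.Nonsingular (x : L) (y : L)) (hm : pt h ∈ E),
    ∃ g : (sp V).toAffine.Nonsingular (residue A x) (residue A y), red ⟨pt h, hm⟩ = pt g

/-- RD: the reduction homomorphism exists -/
def S_RD : Prop := ∀ (L : Type) [Field L] (A : ValuationSubring L)
  (V : WeierstrassCurve A), ∃ (E : AddSubgroup (Pt (gn V))) (red : E →+ Pt (sp V)), IsRed V E red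

/-! ## The theorem of Lang for Weierstrass cubics -/

/-- LA: almost all elements are first coordinates of `F P - P` -/
def S_LA : Prop := ∀ (κ : Type) [Field κ] [IsAlgClosed κ] (Q : ℕ), 1 < Q →
  (∀ x y : κ, (x + y) ^ Q = x ^ Q + y ^ Q) → ∀ V : WeierstrassCurve κ,
  V.a₁ ^ Q = V.a₁ → V.a₂ ^ Q = V.a₂ → V.a₃ ^ Q = V.a₃ → V.a₄ ^ Q = V.a₄ → V.a₆ ^ Q = V.a₆ →
  ∃ S : Finset κ, ∀ c : κ, c ∉ S → ∃ x y : κ, x ^ Q ≠ x ∧ V.toAffine.Nonsingular x y ∧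
    V.toAffine.addX (x ^ Q) x ((y ^ Q - V.toAffine.negY x y) / (x ^ Q - x)) = c

/-- LB: the theorem of Lang -/
def S_LB : Prop := ∀ (κ : Type) [Field κ] [IsAlgClosed κ] (Q : ℕ), 1 < Q →
  ∀ F : κ →+* κ, (∀ x, F x = x ^ Q) → ∀ (V : WeierstrassCurve κ) (hV : V.map F = V) (b : Pt V),
    ∃ c : Pt V, mp F hV c - c = b

/-! ## The formal group, in a field with a nonarchimedean norm -/

/-- FA: the parameter `t = x / y` is additive modulo squares -/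
def S_FA : Prop := ∀ (Ω : Type) [NormedField Ω], (∀ x y : Ω, ‖x + y‖ ≤ max ‖x‖ ‖y‖) →
  ∀ V : WeierstrassCurve Ω, IntW V →
    (∀ (x y : Ω), V.toAffine.Nonsingular x y → 1 < ‖x‖ → y ≠ 0 ∧ ‖x / y‖ ^ 2 * ‖x‖ = 1) ∧
    (∀ P : Pt V, Big 1 P → ‖tt (-P) + tt P‖ ≤ ‖tt P‖ ^ 2) ∧
    ∀ P R : Pt V, Big 1 P → Big 1 R →
      Big 1 (P + R) ∧ ‖tt (P + R) - tt P - tt R‖ ≤ (max ‖tt P‖ ‖tt R‖) ^ 2

/-- FB: the points with given parameter -/
def S_FB : Prop := ∀ (Ω : Type) [NormedField Ω] [IsAlgClosed Ω],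
  (∀ x y : Ω, ‖x + y‖ ≤ max ‖x‖ ‖y‖) → ∀ V : WeierstrassCurve Ω, IntW V →
    (∀ t : Ω, ‖t‖ < 1 → ∃ P : Pt V, Big 1 P ∧ tt P = t) ∧
    ∀ P R : Pt V, Big 1 P → Big 1 R → tt P = tt R → P = R

/-- DV: division of large points, and the torsion is finite -/
def S_DV : Prop := ∀ (Ω : Type) [NormedField Ω] [IsAlgClosed Ω] [CharZero Ω],
  (∀ x y : Ω, ‖x + y‖ ≤ max ‖x‖ ‖y‖) → ∀ V : WeierstrassCurve Ω, V.Δ ≠ 0 → ∀ n : ℕ, 1 ≤ n →
    {P : Pt V | n • P = 0}.Finite ∧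
    ∀ B : ℝ, ∃ C : ℝ, ∀ P : Pt V, Big C P → ∃ P' : Pt V, n • P' = P ∧ Big B P'

/-! ## The situation `Sit` -/

/-- TE: lifting of residues -/
def S_TE : Prop := ∀ (Ω : Type) [NormedField Ω] [IsAlgClosed Ω] [CharZero Ω]
  (G : Subgroup (RingAut Ω)) (N : Subgroup G) (φ : G) (p m Q : ℕ), Sit G N φ p m Q →
  ∀ x : Ω, ‖x‖ ≤ 1 → ‖x ^ Q ^ p ^ m - x‖ < 1 →
    ∃ x' : Ω, (∀ σ ∈ N, (σ : RingAut Ω) x' = x') ∧ ‖x' - x‖ < 1

/-- HE: lifting of nonsingular points of the reduction -/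
def S_HE : Prop := ∀ (Ω : Type) [NormedField Ω] [IsAlgClosed Ω] [CharZero Ω]
  (G : Subgroup (RingAut Ω)) (N : Subgroup G) (φ : G) (p m Q : ℕ), Sit G N φ p m Q →
  ∀ V : WeierstrassCurve Ω, IntW V → FixW V G → ∀ x y : Ω, ‖x‖ ≤ 1 → ‖y‖ ≤ 1 →
    ‖x ^ Q ^ p ^ m - x‖ < 1 → ‖y ^ Q ^ p ^ m - y‖ < 1 →
    ‖y ^ 2 + V.a₁ * x * y + V.a₃ * y - (x ^ 3 + V.a₂ * x ^ 2 + V.a₄ * x + V.a₆)‖ < 1 →
    (‖V.a₁ * y - (3 * x ^ 2 + 2 * V.a₂ * x + V.a₄)‖ = 1 ∨ ‖2 * y + V.a₁ * x + V.a₃‖ = 1) →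
    ∃ x' y' : Ω, V.toAffine.Nonsingular x' y' ∧ ‖x' - x‖ < 1 ∧ ‖y' - y‖ < 1 ∧
      ∀ σ ∈ N, (σ : RingAut Ω) x' = x' ∧ (σ : RingAut Ω) y' = y'

/-- ST: one step of the approximation in the kernel of the reduction -/
def S_ST : Prop := ∀ (Ω : Type) [NormedField Ω] [IsAlgClosed Ω] [CharZero Ω]
  (G : Subgroup (RingAut Ω)) (N : Subgroup G) (φ : G) (p m Q : ℕ), Sit G N φ p m Q →
  ∀ (V : WeierstrassCurve Ω) (_ : IntW V) (hV : FixW V G) (π : Ω), 0 < ‖π‖ → ‖π‖ < 1 →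
    (∀ τ : G, (τ : RingAut Ω) π = π) →
    (∀ x : Ω, (∀ σ ∈ N, (σ : RingAut Ω) x = x) → ‖x‖ < 1 → ‖x‖ ≤ ‖π‖) →
    ∀ n : ℕ, 1 ≤ n → ∀ b ∈ Fix hV N, Big 1 b → ‖tt b‖ ≤ ‖π‖ ^ n →
      ∑ i ∈ Finset.range (p ^ m), T hV (φ ^ i) b = 0 →
      ∃ R ∈ Fix hV N, Big 1 R ∧ ‖tt (b - (T hV φ R - R))‖ ≤ ‖π‖ ^ (n + 1)

/-- DE: points near zero -/
def S_DE : Prop := ∀ (Ω : Type) [NormedField Ω] [IsAlgClosed Ω] [CharZero Ω]
  (G : Subgroup (RingAut Ω)) (N : Subgroup G) (φ : G) (p m Q : ℕ), Sit G N φ p m Q →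
  ∀ (V : WeierstrassCurve Ω) (_ : IntW V) (hV : FixW V G), ∃ C : ℝ, ∀ b ∈ Fix hV N, Big C b →
      ∑ i ∈ Finset.range (p ^ m), T hV (φ ^ i) b = 0 →
      ∃ R ∈ Fix hV N, Big 1 R ∧ T hV φ R - R = b

/-- EH: the first cohomology group of the kernel of the reduction is zero -/
def S_EH : Prop := ∀ (Ω : Type) [NormedField Ω] [IsAlgClosed Ω] [CharZero Ω]
  (G : Subgroup (RingAut Ω)) (N : Subgroup G) (φ : G) (p m Q : ℕ), Sit G N φ p m Q →
  ∀ (V : WeierstrassCurve Ω) (_ : IntW V) (hV : FixW V G), ∀ b ∈ Fix hV N, Big 1 b →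
      ∑ i ∈ Finset.range (p ^ m), T hV (φ ^ i) b = 0 →
      ∃ R ∈ Fix hV N, Big 1 R ∧ T hV φ R - R = b

/-- EN: the points with nonsingular reduction form a subgroup -/
def S_EN : Prop := ∀ (Ω : Type) [NormedField Ω], (∀ x y : Ω, ‖x + y‖ ≤ max ‖x‖ ‖y‖) →
  ∀ V : WeierstrassCurve Ω, IntW V → ∃ E : AddSubgroup (Pt V), ∀ P, P ∈ E ↔ NS P

/-- CO: the first cohomology group of the points with nonsingular reduction is zero -/
def S_CO : Prop := ∀ (Ω : Type) [NormedField Ω] [IsAlgClosed Ω] [CharZero Ω]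
  (G : Subgroup (RingAut Ω)) (N : Subgroup G) (φ : G) (p m Q : ℕ), Sit G N φ p m Q →
  ∀ (V : WeierstrassCurve Ω) (_ : IntW V) (hV : FixW V G), ∀ a ∈ Fix hV N, NS a →
      ∑ i ∈ Finset.range (p ^ m), T hV (φ ^ i) a = 0 →
      ∃ R ∈ Fix hV N, NS R ∧ T hV φ R - R = a

/-- FI: the points over the local field modulo the kernel of the reduction are finite in number -/
def S_FI : Prop := ∀ (Ω : Type) [NormedField Ω] [CharZero Ω], (∀ x y : Ω, ‖x + y‖ ≤ max ‖x‖ ‖y‖) →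
  ∀ (G : Subgroup (RingAut Ω)) (N : Subgroup G),
  (∀ ε : ℝ, 0 < ε → ∃ X : Finset Ω, ∀ x : Ω, ‖x‖ ≤ 1 →
    (∀ σ ∈ N, (σ : RingAut Ω) x = x) → ∃ x' ∈ X, ‖x - x'‖ < ε) →
  ∀ (V : WeierstrassCurve Ω) (_ : IntW V) (hV : FixW V G),
    ∃ S : Finset (Pt V), ∀ P ∈ Fix hV N, ∃ P' ∈ S, P' ∈ Fix hV N ∧ Big 1 (P - P')

/-- TA: the indices of the points with nonsingular reduction -/
def S_TA : Prop := ∀ (Ω : Type) [NormedField Ω] [IsAlgClosed Ω] [CharZero Ω]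
  (G : Subgroup (RingAut Ω)) (N : Subgroup G) (φ : G) (p m Q : ℕ), Sit G N φ p m Q →
  ∀ (V : WeierstrassCurve Ω) (_ : IntW V) (hV : FixW V G) (E : AddSubgroup (Pt V)),
    (∀ P, P ∈ E ↔ NS P) → (p ∣ E.relIndex (Fix hV N) ↔ p ∣ E.relIndex (Fix hV ⊤)) ∧
      E.relIndex (Fix hV N) ≠ 0 ∧ E.relIndex (Fix hV ⊤) ≠ 0

/-- LT: a local cocycle which is trivial over the extension is trivial -/
def S_LT : Prop := ∀ (Ω : Type) [NormedField Ω] [IsAlgClosed Ω] [CharZero Ω]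
  (G : Subgroup (RingAut Ω)) (N : Subgroup G) (φ : G) (p m Q : ℕ), Sit G N φ p m Q →
  ∀ (V : WeierstrassCurve Ω) (_ : IntW V) (hV : FixW V G) (E : AddSubgroup (Pt V)),
    (∀ P, P ∈ E ↔ NS P) → ¬ p ∣ E.relIndex (Fix hV N) →
    ∀ c : G → Pt V, (∀ σ τ, c (σ * τ) = c σ + T hV σ (c τ)) →
      ∀ P : Pt V, (∀ σ ∈ N, c σ = T hV σ P - P) →
        ∃ P' : Pt V, ∀ σ, c σ = T hV σ P' - P'

/-- IR: a change of variables with unit `u` between integral equations is integral -/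
def S_IR : Prop := ∀ (Ω : Type) [NormedField Ω], (∀ x y : Ω, ‖x + y‖ ≤ max ‖x‖ ‖y‖) →
  ∀ (V : WeierstrassCurve Ω) (C : VariableChange Ω), IntW V → IntW (C • V) → ‖(C.u : Ω)‖ = 1 →
    ‖C.r‖ ≤ 1 ∧ ‖C.s‖ ≤ 1 ∧ ‖C.t‖ ≤ 1

/-- MQ: descent of a change of variables -/
def S_MQ : Prop := ∀ (Ω : Type) [NormedField Ω] [IsAlgClosed Ω] [CharZero Ω]
  (G : Subgroup (RingAut Ω)) (N : Subgroup G) (φ : G) (p m Q : ℕ), Sit G N φ p m Q →
  ∀ (V : WeierstrassCurve Ω) (_ : IntW V) (_ : FixW V G) (C : VariableChange Ω),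
    ‖(C.u : Ω)‖ < 1 → IntW (C • V) →
    (∀ σ ∈ N, (σ : RingAut Ω) (C.u : Ω) = C.u ∧ (σ : RingAut Ω) C.r = C.r ∧
      (σ : RingAut Ω) C.s = C.s ∧ (σ : RingAut Ω) C.t = C.t) →
    ∃ C' : VariableChange Ω, ‖(C'.u : Ω)‖ = ‖(C.u : Ω)‖ ∧ IntW (C' • V) ∧
      ∀ σ : G, (σ : RingAut Ω) (C'.u : Ω) = C'.u ∧ (σ : RingAut Ω) C'.r = C'.r ∧
        (σ : RingAut Ω) C'.s = C'.s ∧ (σ : RingAut Ω) C'.t = C'.t

end Pool.Agent.P8H17.UL
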