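import Pool.Agent.P8H17.UL.Stm

/-!
# Project UL: the forms with vectors (twists by an integral matrix of finite order)
-/

set_option autoImplicit false

open WeierstrassCurve

namespace Pool.Agent.P8H17.UL

section tw

variable {Ω : Type} [Field Ω] {V : WeierstrassCurve Ω} {G : Subgroup (RingAut Ω)}

/-- the twisted action on the vectors of points -/
noncomputable def tw (hV : FixW V G) {g : ℕ} (A : Matrix (Fin g) (Fin g) ℤ) (σ : G) :
    (Fin g → Pt V) →+ (Fin g → Pt V) where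
  toFun P i := ∑ j, A i j • T hV σ (P j)
  map_zero' := by funext i; simp
  map_add' P Q := by funext i; simp [Finset.sum_add_distrib]

variable (hV : FixW V G) {g : ℕ}

lemma tw_apply (A : Matrix (Fin g) (Fin g) ℤ) (σ : G) (P : Fin g → Pt V) (i : Fin g) :
    tw hV A σ P i = ∑ j, A i j • T hV σ (P j) := rfl

lemma tw_one (σ : G) (P : Fin g → Pt V) (i : Fin g) : tw hV 1 σ P i = T hV σ (P i) := by
  rw [tw_apply]
  simp [Matrix.one_apply]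

lemma tw_mul (A B : Matrix (Fin g) (Fin g) ℤ) (σ τ : G) (P : Fin g → Pt V) :
    tw hV (A * B) (σ * τ) P = tw hV A σ (tw hV B τ P) := by
  funext i
  simp only [tw_apply, map_sum, map_zsmul, T_mul]
  simp_rw [Matrix.mul_apply, Finset.sum_smul, Finset.smul_sum, mul_smul]
  exact Finset.sum_comm

lemma tw_pow (A : Matrix (Fin g) (Fin g) ℤ) (σ : G) (n : ℕ) (P : Fin g → Pt V) :
    tw hV (A ^ n) (σ ^ n) P = (fun R => tw hV A σ R)^[n] P := by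
  induction n generalizing P with
  | zero =>
    funext i
    rw [pow_zero, pow_zero, tw_one, T_one]
    rfl
  | succ n ih =>
    rw [pow_succ, pow_succ, tw_mul, ih, Function.iterate_succ_apply]

end tw

/-- ST: one step of the approximation in the kernel of the reduction -/
def S_STg : Prop := ∀ (Ω : Type) [NormedField Ω] [IsAlgClosed Ω] [CharZero Ω]
  (G : Subgroup (RingAut Ω)) (N : Subgroup G) (φ : G) (p m Q : ℕ), Sit G N φ p m Q →
  ∀ (V : WeierstrassCurve Ω) (_ : IntW V) (hV : FixW V G) (π : Ω), 0 < ‖π‖ → ‖π‖ < 1 →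
    (∀ τ : G, (τ : RingAut Ω) π = π) →
    (∀ x : Ω, (∀ σ ∈ N, (σ : RingAut Ω) x = x) → ‖x‖ < 1 → ‖x‖ ≤ ‖π‖) →
    ∀ (g : ℕ) (A : Matrix (Fin g) (Fin g) ℤ), A ^ p ^ m = 1 →
    ∀ n : ℕ, 1 ≤ n → ∀ b : Fin g → Pt V,
      (∀ i, b i ∈ Fix hV N ∧ Big 1 (b i) ∧ ‖tt (b i)‖ ≤ ‖π‖ ^ n) →
      ∑ k ∈ Finset.range (p ^ m), tw hV (A ^ k) (φ ^ k) b = 0 →
      ∃ R : Fin g → Pt V, ∀ i, R i ∈ Fix hV N ∧ Big 1 (R i) ∧
        ‖tt ((b - (tw hV A φ R - R)) i)‖ ≤ ‖π‖ ^ (n + 1)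

/-- DE: points near zero -/
def S_DEg : Prop := ∀ (Ω : Type) [NormedField Ω] [IsAlgClosed Ω] [CharZero Ω]
  (G : Subgroup (RingAut Ω)) (N : Subgroup G) (φ : G) (p m Q : ℕ), Sit G N φ p m Q →
  ∀ (V : WeierstrassCurve Ω) (_ : IntW V) (hV : FixW V G)
    (g : ℕ) (A : Matrix (Fin g) (Fin g) ℤ), A ^ p ^ m = 1 →
    ∃ C : ℝ, ∀ b : Fin g → Pt V, (∀ i, b i ∈ Fix hV N ∧ Big C (b i)) →
      ∑ k ∈ Finset.range (p ^ m), tw hV (A ^ k) (φ ^ k) b = 0 →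
      ∃ R : Fin g → Pt V, (∀ i, R i ∈ Fix hV N ∧ Big 1 (R i)) ∧ tw hV A φ R - R = b

/-- EH: the first cohomology group of the kernel of the reduction is zero -/
def S_EHg : Prop := ∀ (Ω : Type) [NormedField Ω] [IsAlgClosed Ω] [CharZero Ω]
  (G : Subgroup (RingAut Ω)) (N : Subgroup G) (φ : G) (p m Q : ℕ), Sit G N φ p m Q →
  ∀ (V : WeierstrassCurve Ω) (_ : IntW V) (hV : FixW V G)
    (g : ℕ) (A : Matrix (Fin g) (Fin g) ℤ), A ^ p ^ m = 1 →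
    ∀ b : Fin g → Pt V, (∀ i, b i ∈ Fix hV N ∧ Big 1 (b i)) →
      ∑ k ∈ Finset.range (p ^ m), tw hV (A ^ k) (φ ^ k) b = 0 →
      ∃ R : Fin g → Pt V, (∀ i, R i ∈ Fix hV N ∧ Big 1 (R i)) ∧ tw hV A φ R - R = b

/-- CO: the first cohomology group of the points with nonsingular reduction is zero -/
def S_COg : Prop := ∀ (Ω : Type) [NormedField Ω] [IsAlgClosed Ω] [CharZero Ω]
  (G : Subgroup (RingAut Ω)) (N : Subgroup G) (φ : G) (p m Q : ℕ), Sit G N φ p m Q →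
  ∀ (V : WeierstrassCurve Ω) (_ : IntW V) (hV : FixW V G)
    (g : ℕ) (A : Matrix (Fin g) (Fin g) ℤ), A ^ p ^ m = 1 →
    ∀ a : Fin g → Pt V, (∀ i, a i ∈ Fix hV N ∧ NS (a i)) →
      ∑ k ∈ Finset.range (p ^ m), tw hV (A ^ k) (φ ^ k) a = 0 →
      ∃ R : Fin g → Pt V, (∀ i, R i ∈ Fix hV N ∧ NS (R i)) ∧ tw hV A φ R - R = a

/-- LT: a local cocycle which is trivial over the extension is trivial -/
def S_LTg : Prop := ∀ (Ω : Type) [NormedField Ω] [IsAlgClosed Ω] [CharZero Ω]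
  (G : Subgroup (RingAut Ω)) (N : Subgroup G) (φ : G) (p m Q : ℕ), Sit G N φ p m Q →
  ∀ (V : WeierstrassCurve Ω) (_ : IntW V) (hV : FixW V G) (E : AddSubgroup (Pt V)),
    (∀ P, P ∈ E ↔ NS P) → ¬ p ∣ E.relIndex (Fix hV N) →
    ∀ (g : ℕ) (R : G →* GL (Fin g) ℤ), (∀ σ ∈ N, R σ = 1) →
    ∀ c : G → Fin g → Pt V,
      (∀ σ τ, c (σ * τ) = c σ + tw hV (R σ : Matrix (Fin g) (Fin g) ℤ) σ (c τ)) →
      ∀ P : Fin g → Pt V, (∀ σ ∈ N, ∀ i, c σ i = T hV σ (P i) - P i) →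
        ∃ P' : Fin g → Pt V, ∀ σ, c σ = tw hV (R σ : Matrix (Fin g) (Fin g) ℤ) σ P' - P'

/-- the scalar form -/
theorem co_of_cog (h : S_COg) : S_CO := by
  intro Ω _ _ _ G N φ p m Q hS V hI hV a ha hns hsum
  obtain ⟨R, hR, hRa⟩ := h Ω G N φ p m Q hS V hI hV 1 1 (one_pow _) (fun _ => a)
    (fun _ => ⟨ha, hns⟩) (by
      funext i
      rw [Finset.sum_apply]
      simp only [one_pow, tw_one]
      exact hsum)
  refine ⟨R 0, (hR 0).1, (hR 0).2, ?_⟩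
  have h1 := congrFun hRa 0
  rw [Pi.sub_apply, tw_one] at h1
  exact h1

/-- the scalar form -/
theorem lt_of_ltg (h : S_LTg) : S_LT := by
  intro Ω _ _ _ G N φ p m Q hS V hI hV E hE hp c hc P hP
  obtain ⟨P', hP'⟩ := h Ω G N φ p m Q hS V hI hV E hE hp 1 1 (fun _ _ => rfl) (fun σ _ => c σ)
    (fun σ τ => by
      funext i
      rw [Pi.add_apply]
      have e : ((1 : G →* GL (Fin 1) ℤ) σ : Matrix (Fin 1) (Fin 1) ℤ) = 1 := rfl
      rw [e, tw_one, hc]) (fun _ => P) (fun σ hσ _ => hP σ hσ)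
  refine ⟨P' 0, fun σ => ?_⟩
  have h1 := congrFun (hP' σ) 0
  have e : ((1 : G →* GL (Fin 1) ℤ) σ : Matrix (Fin 1) (Fin 1) ℤ) = 1 := rfl
  rw [Pi.sub_apply, e, tw_one] at h1
  exact h1

end Pool.Agent.P8H17.UL
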