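import Pool.Agent.P8H57.UL.COg
import Pool.Agent.P8H57.UL.MQ
import Pool.Agent.P8H54.UL.DV
import Pool.Agent.P8H24.UL.FB
import Pool.Agent.P8H24.UL.FI
import Pool.Agent.P8H24.UL.TE
import Pool.Agent.P8H29.UL.LA
import Pool.Agent.P8H29.UL.FA
import Pool.Agent.P8H76.UL.LB
import Pool.Agent.P8H76.UL.RC
import Pool.Agent.P8H80.UL.RA
import Pool.Agent.P8H80.UL.RB
import Pool.Agent.P8H92.UL.RD
import Pool.Agent.P8H89.UL.STg
import Pool.Agent.P8H89.UL.DEg
import Pool.Agent.P8H72.UL.TA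
import Pool.Agent.P8H72.UL.LT

/-!
# Project UL: the local theorem for unramified `p`-extensions

The packages are by helper24, helper29, helper54, helper57, helper72, helper76, helper80, helper89 and
helper92.
-/

set_option autoImplicit false

namespace Pool.Agent.P8H17.UL

theorem t_rd : S_RD :=
  Pool.Agent.P8H92.UL.rd Pool.Agent.P8H80.UL.ra Pool.Agent.P8H80.UL.rb Pool.Agent.P8H76.UL.rc

theorem t_en : S_EN := Pool.Agent.P8H92.UL.en t_rd

theorem t_lb : S_LB := Pool.Agent.P8H76.UL.lb Pool.Agent.P8H29.UL.la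

theorem t_te : S_TE := Pool.Agent.P8H24.UL.te

theorem t_he : S_HE := Pool.Agent.P8H24.UL.he_of t_te

theorem t_stg : S_STg := Pool.Agent.P8H89.UL.stg Pool.Agent.P8H29.UL.fa Pool.Agent.P8H24.UL.fb t_te

theorem t_deg : S_DEg := Pool.Agent.P8H89.UL.deg Pool.Agent.P8H29.UL.fa Pool.Agent.P8H54.UL.dv

theorem t_ehg : S_EHg := Pool.Agent.P8H89.UL.ehg Pool.Agent.P8H29.UL.fa t_stg t_deg

theorem t_cog : S_COg := Pool.Agent.P8H57.UL.cog t_rd t_lb t_he t_ehg

theorem t_co : S_CO := co_of_cog t_cog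

theorem t_ta : S_TA := Pool.Agent.P8H72.UL.ta Pool.Agent.P8H24.UL.fi t_co

theorem t_lt : S_LT := Pool.Agent.P8H72.UL.lt t_co

theorem t_mq : S_MQ := Pool.Agent.P8H57.UL.mq t_te

end Pool.Agent.P8H17.UL
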