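import Mathlib

/-!
# Project UL: the local theorem for unramified `p`-extensions. Definitions
-/

set_option autoImplicit false

open WeierstrassCurve

namespace Pool.Agent.P8H17.UL

/-- the points of `V` -/
def Pt {L : Type} [Field L] (V : WeierstrassCurve L) : Type := V.toAffine.Point

/-- the group law on the points -/
noncomputable instance Pt.group {L : Type} [Field L] (V : WeierstrassCurve L) :
    AddCommGroup (Pt V) :=
  @Affine.Point.instAddCommGroup L _ V.toAffine (Classical.decEq L)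

section pt

variable {F : Type} [Field F] {V : WeierstrassCurve F}

/-- the point with the coordinates `x`, `y` -/
def pt {x y : F} (h : V.toAffine.Nonsingular x y) : Pt V := Affine.Point.some x y h

lemma pt_ne {x y : F} (h : V.toAffine.Nonsingular x y) : pt h ≠ (0 : Pt V) :=
  Affine.Point.some_ne_zero h

lemma pt_cases (P : Pt V) : P = 0 ∨ ∃ (x y : F) (h : V.toAffine.Nonsingular x y), P = pt h := by
  rcases P with _ | ⟨x, y, h⟩
  · exact Or.inl rfl
  · exact Or.inr ⟨x, y, h, rfl⟩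

lemma pt_inj {x y x' y' : F} {h : V.toAffine.Nonsingular x y}
    {h' : V.toAffine.Nonsingular x' y'} (e : pt h = pt h') : x = x' ∧ y = y' :=
  Affine.Point.some.inj (W' := V.toAffine) e

lemma pt_congr {x y x' y' : F} (h : V.toAffine.Nonsingular x y)
    (h' : V.toAffine.Nonsingular x' y') (hx : x = x') (hy : y = y') : pt h = pt h' := by
  subst hx hy
  rfl

/-- the negative of a point -/
lemma neg_pt {x y : F} (h : V.toAffine.Nonsingular x y) :
    -pt h = pt ((Affine.nonsingular_neg x y).2 h) := rfl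

open scoped Classical in
/-- opposite points -/
lemma add_pt_of_eq {x₁ y₁ x₂ y₂ : F} (h₁ : V.toAffine.Nonsingular x₁ y₁)
    (h₂ : V.toAffine.Nonsingular x₂ y₂) (hx : x₁ = x₂) (hy : y₁ = V.toAffine.negY x₂ y₂) :
    pt h₁ + pt h₂ = 0 := by
  have h := Affine.Point.add_of_Y_eq (W := V.toAffine) (h₁ := h₁) (h₂ := h₂) hx hy
  exact h

open scoped Classical in
/-- the sum of two points that are not opposite -/
lemma add_pt {x₁ y₁ x₂ y₂ : F} (h₁ : V.toAffine.Nonsingular x₁ y₁)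
    (h₂ : V.toAffine.Nonsingular x₂ y₂) (hxy : ¬ (x₁ = x₂ ∧ y₁ = V.toAffine.negY x₂ y₂)) :
    pt h₁ + pt h₂ = pt (Affine.nonsingular_add h₁ h₂ hxy) := by
  have h := Affine.Point.add_some (W := V.toAffine) (h₁ := h₁) (h₂ := h₂) hxy
  exact h

end pt

section mp

variable {F L M : Type} [Field F] [Field L] [Field M]

lemma ns_map {φ : F →+* L} {V : WeierstrassCurve F} {V' : WeierstrassCurve L} (h : V.map φ = V')
    {x y : F} (hn : V.toAffine.Nonsingular x y) : V'.toAffine.Nonsingular (φ x) (φ y) := by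
  subst h
  exact (V.toAffine.map_nonsingular φ.injective x y).2 hn

/-- the map on points given by a homomorphism of fields -/
def mpf (φ : F →+* L) {V : WeierstrassCurve F} {V' : WeierstrassCurve L} (h : V.map φ = V') :
    Pt V → Pt V'
  | Affine.Point.zero => Affine.Point.zero
  | Affine.Point.some _ _ hn => Affine.Point.some _ _ (ns_map h hn)

lemma mpf_add (φ : F →+* L) {V : WeierstrassCurve F} {V' : WeierstrassCurve L} (h : V.map φ = V')
    (P Q : Pt V) : mpf φ h (P + Q) = mpf φ h P + mpf φ h Q := by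
  subst h
  let i1 : Algebra F L := φ.toAlgebra
  let Φ : Pt V →+ Pt (V.map φ) :=
    @Affine.Point.map F F F L _ _ _ _ V (Classical.decEq F) (Classical.decEq L) _ _ _ _ _ _ _
      (Algebra.ofId F L)
  have key : ∀ P : Pt V, mpf φ rfl P = Φ P := by
    intro P
    rcases P with _ | ⟨x, y, h⟩
    · rfl
    · rfl
  rw [key, key, key]
  exact map_add Φ P Q

/-- the map on points given by a homomorphism of fields -/
noncomputable def mp (φ : F →+* L) {V : WeierstrassCurve F} {V' : WeierstrassCurve L}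
    (h : V.map φ = V') : Pt V →+ Pt V' := AddMonoidHom.mk' (mpf φ h) (mpf_add φ h)

lemma mp_pt (φ : F →+* L) {V : WeierstrassCurve F} {V' : WeierstrassCurve L} (h : V.map φ = V')
    {x y : F} (hn : V.toAffine.Nonsingular x y) : mp φ h (pt hn) = pt (ns_map h hn) := rfl

lemma mp_one {V : WeierstrassCurve F} {φ : F →+* F} (h : V.map φ = V) (hφ : ∀ x, φ x = x)
    (P : Pt V) : mp φ h P = P := by
  have e : φ = RingHom.id F := RingHom.ext hφ
  subst e
  rcases P with _ | ⟨x, y, h⟩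
  · rfl
  · rfl

lemma mp_inj (φ : F →+* L) {V : WeierstrassCurve F} {V' : WeierstrassCurve L} (h : V.map φ = V') :
    Function.Injective (mp φ h) := by
  intro P Q e
  rcases pt_cases P with rfl | ⟨x, y, hn, rfl⟩ <;> rcases pt_cases Q with rfl | ⟨x', y', hn', rfl⟩
  · rfl
  · rw [map_zero, mp_pt] at e
    exact absurd e.symm (pt_ne _)
  · rw [map_zero, mp_pt] at e
    exact absurd e (pt_ne _)
  · rw [mp_pt, mp_pt] at e
    obtain ⟨e1, e2⟩ := pt_inj e
    exact pt_congr _ _ (φ.injective e1) (φ.injective e2)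

end mp

section act

variable {Ω : Type} [Field Ω] {V : WeierstrassCurve Ω} {G : Subgroup (RingAut Ω)}

/-- the coefficients of `V` are fixed by `G` -/
def FixW (V : WeierstrassCurve Ω) (G : Subgroup (RingAut Ω)) : Prop :=
  ∀ τ ∈ G, V.map ((τ : Ω ≃+* Ω) : Ω →+* Ω) = V

/-- the action on the points -/
noncomputable def T (hV : FixW V G) (σ : G) : Pt V →+ Pt V :=
  mp (((σ : RingAut Ω) : Ω ≃+* Ω) : Ω →+* Ω) (hV σ σ.2)

lemma T_pt (hV : FixW V G) (σ : G) {x y : Ω} (h : V.toAffine.Nonsingular x y) :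
    T hV σ (pt h) = pt (ns_map (hV σ σ.2) h) := rfl

lemma T_one (hV : FixW V G) (P : Pt V) : T hV 1 P = P := by
  rcases P with _ | ⟨x, y, h⟩
  · rfl
  · rfl

lemma T_mul (hV : FixW V G) (σ τ : G) (P : Pt V) : T hV (σ * τ) P = T hV σ (T hV τ P) := by
  rcases P with _ | ⟨x, y, h⟩
  · rfl
  · rfl

/-- the points fixed by the subgroup `N` -/
noncomputable def Fix (hV : FixW V G) (N : Subgroup G) : AddSubgroup (Pt V) where
  carrier := {P | ∀ σ ∈ N, T hV σ P = P}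
  zero_mem' := fun σ _ => map_zero _
  add_mem' := fun {P Q} hP hQ σ hσ => by rw [map_add, hP σ hσ, hQ σ hσ]
  neg_mem' := fun {P} hP σ hσ => by rw [map_neg, hP σ hσ]

lemma mem_Fix (hV : FixW V G) (N : Subgroup G) (P : Pt V) :
    P ∈ Fix hV N ↔ ∀ σ ∈ N, T hV σ P = P := Iff.rfl

/-- a point is fixed if and only if its coordinates are fixed -/
lemma pt_mem_Fix (hV : FixW V G) (N : Subgroup G) {x y : Ω} (h : V.toAffine.Nonsingular x y) :
    pt h ∈ Fix hV N ↔ ∀ σ ∈ N, (σ : RingAut Ω) x = x ∧ (σ : RingAut Ω) y = y := by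
  rw [mem_Fix]
  refine forall₂_congr fun σ _ => ?_
  rw [T_pt]
  constructor
  · intro e
    exact pt_inj e
  · rintro ⟨e1, e2⟩
    exact pt_congr _ _ e1 e2

end act

section norm

variable {Ω : Type} [NormedField Ω]

/-- `V` has integral coefficients and nonzero discriminant -/
structure IntW (V : WeierstrassCurve Ω) : Prop where
  h1 : ‖V.a₁‖ ≤ 1
  h2 : ‖V.a₂‖ ≤ 1
  h3 : ‖V.a₃‖ ≤ 1
  h4 : ‖V.a₄‖ ≤ 1
  h6 : ‖V.a₆‖ ≤ 1
  hΔ : V.Δ ≠ 0

variable {V : WeierstrassCurve Ω}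

/-- the first coordinate is larger than `B` -/
def Big (B : ℝ) (P : Pt V) : Prop :=
  ∀ (x y : Ω) (h : V.toAffine.Nonsingular x y), P = pt h → B < ‖x‖

/-- the parameter `x / y` at the point at infinity -/
noncomputable def tt : Pt V → Ω
  | Affine.Point.zero => 0
  | Affine.Point.some x y _ => x / y

/-- the reduction of the point is not singular -/
def NS (P : Pt V) : Prop :=
  ∀ (x y : Ω) (h : V.toAffine.Nonsingular x y), P = pt h →
    1 < ‖x‖ ∨ ‖V.a₁ * y - (3 * x ^ 2 + 2 * V.a₂ * x + V.a₄)‖ = 1 ∨ ‖2 * y + V.a₁ * x + V.a₃‖ = 1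

/-- The situation: `G` a group of isometric automorphisms, `N` a normal subgroup with quotient of order
`p ^ m` generated by `φ`, which acts on the residues of order dividing `p ^ m` as the power `Q`. -/
structure Sit (G : Subgroup (RingAut Ω)) (N : Subgroup G) (φ : G) (p m Q : ℕ) : Prop where
  na : ∀ x y : Ω, ‖x + y‖ ≤ max ‖x‖ ‖y‖
  hp : p.Prime
  iso : ∀ (τ : G) (x : Ω), ‖(τ : RingAut Ω) x‖ = ‖x‖
  nor : N.Normal
  phiM : φ ^ p ^ m ∈ N
  gen : ∀ τ : G, ∃ i : ℕ, (φ ^ i)⁻¹ * τ ∈ N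
  Q2 : 1 < Q
  resc : ∃ l f : ℕ, l.Prime ∧ Q = l ^ f ∧ ‖(l : Ω)‖ < 1
  frob : ∀ x : Ω, ‖x‖ ≤ 1 → ‖x ^ Q ^ p ^ m - x‖ < 1 → ‖(φ : RingAut Ω) x - x ^ Q‖ < 1
  triv : ∀ σ ∈ N, ∀ x : Ω, ‖x‖ ≤ 1 → ‖x ^ Q ^ p ^ m - x‖ < 1 → ‖(σ : RingAut Ω) x - x‖ < 1
  resfix : ∀ x : Ω, ‖x‖ ≤ 1 → (∀ σ ∈ N, (σ : RingAut Ω) x = x) → ‖x ^ Q ^ p ^ m - x‖ < 1
  teich : ∀ x : Ω, ‖x‖ = 1 → ∃ (z : Ω) (n : ℕ), z ^ n = 1 ∧ ‖(n : Ω)‖ = 1 ∧ ‖z - x‖ < 1
  unif : ∃ π : Ω, 0 < ‖π‖ ∧ ‖π‖ < 1 ∧ (∀ τ : G, (τ : RingAut Ω) π = π) ∧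
    ∀ x : Ω, (∀ σ ∈ N, (σ : RingAut Ω) x = x) → ‖x‖ < 1 → ‖x‖ ≤ ‖π‖
  tb : ∀ ε : ℝ, 0 < ε → ∃ X : Finset Ω, ∀ x : Ω, ‖x‖ ≤ 1 →
    (∀ σ ∈ N, (σ : RingAut Ω) x = x) → ∃ x' ∈ X, ‖x - x'‖ < ε

end norm

end Pool.Agent.P8H17.UL
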