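import Pool.Agent.P8H4.PL.Plc
import Pool.Agent.TH841.NF.Plc

/-!
# Project UL: every finite place comes from an embedding
-/

set_option autoImplicit false

open NumberField IsDedekindDomain Filter Topology

namespace Pool.Agent.P8H17.UL

open Pool.Agent.TH841.NF (pid mem_pid pls)
open Pool.Agent.P8H4.PL (exists_prime_mem pth_cont pth_alg)

theorem exists_pls (K : Type) [Field K] [NumberField K] (v : HeightOneSpectrum (𝓞 K)) :
    ∃ (q : ℕ) (_ : Fact q.Prime) (j : K →+* PadicAlgCl q), pls j = v := by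
  obtain ⟨q, hq, hqv⟩ := exists_prime_mem v
  have : Fact q.Prime := ⟨hq⟩
  refine ⟨q, ⟨hq⟩, ?_⟩
  let ψ := Pool.Agent.Y698.SG.Th.pth hqv
  let i1 : Algebra ℚ_[q] (v.adicCompletion K) := ψ.toAlgebra
  have hfin : Module.Finite ℚ_[q] (v.adicCompletion K) := pth_alg hqv
  have : Algebra.IsAlgebraic ℚ_[q] (v.adicCompletion K) := Algebra.IsAlgebraic.of_finite _ _
  have : ContinuousSMul ℚ_[q] (v.adicCompletion K) := by
    refine ⟨?_⟩
    have : (fun x : ℚ_[q] × v.adicCompletion K => x.1 • x.2) = fun x => ψ x.1 * x.2 := by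
      funext x
      exact Algebra.smul_def _ _
    rw [this]
    exact ((pth_cont hqv).comp continuous_fst).mul continuous_snd
  let β : v.adicCompletion K →ₐ[ℚ_[q]] PadicAlgCl q := IsAlgClosed.lift
  have hβ : Continuous β := β.toLinearMap.continuous_of_finiteDimensional
  let j : K →+* PadicAlgCl q := β.toRingHom.comp (algebraMap K (v.adicCompletion K))
  refine ⟨j, ?_⟩
  apply HeightOneSpectrum.ext
  have hmax : v.asIdeal.IsMaximal := v.isMaximal
  refine (hmax.eq_of_le (pls j).isPrime.ne_top ?_).symm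
  intro x hx
  show ‖j (algebraMap (𝓞 K) K x)‖ < 1
  -- the powers tend to zero
  have h1 : Valued.v (algebraMap K (v.adicCompletion K) (algebraMap (𝓞 K) K x)) < 1 := by
    have h2 : Valued.v (algebraMap K (v.adicCompletion K) (algebraMap (𝓞 K) K x)) =
        v.valuation K (algebraMap (𝓞 K) K x) :=
      HeightOneSpectrum.valuedAdicCompletion_eq_valuation' v _
    rw [h2]
    exact (v.valuation_lt_one_iff_mem x).2 hx
  set a : v.adicCompletion K := algebraMap K (v.adicCompletion K) (algebraMap (𝓞 K) K x) with ha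
  have h2 : Tendsto (fun n : ℕ => a ^ n) atTop (𝓝 0) := by
    exact Valued.tendsto_zero_pow_of_v_lt_one h1
  have h3 : Tendsto (fun n : ℕ => (β a) ^ n) atTop (𝓝 0) := by
    have := (hβ.tendsto 0).comp h2
    rw [map_zero] at this
    refine this.congr fun n => ?_
    exact map_pow β a n
  by_contra hcon
  rw [not_lt] at hcon
  have h4 := h3.norm
  rw [norm_zero] at h4
  have h5 := h4.eventually (gt_mem_nhds (show (0 : ℝ) < 1 from one_pos))
  obtain ⟨n, hn⟩ := h5.exists
  rw [norm_pow] at hn
  have h6 : 1 ≤ ‖β a‖ := hcon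
  have h7 := one_le_pow₀ h6 (n := n)
  linarith

end Pool.Agent.P8H17.UL
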