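import Pool.Agent.P8H17.UL.SI2
import Pool.Agent.P8H4.PL.Loc

/-!
# Project UL: the situation at a place which is not ramified
-/

set_option autoImplicit false

open NumberField IsDedekindDomain Polynomial

namespace Pool.Agent.P8H17.UL

open Pool.Agent.TH841.NF (pid mem_pid pls lf mem_lf norm_int norm_le_one_of_val)
open Pool.Agent.P8H4.PL.Fr (Gq norm_eqv)
open Pool.Agent.P8H4.PL (fixed_mem approx_int cls_iff mem_Dj gal_of_fix Ram relindex unr_set approx
  val_le_one_of_norm val_rel)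
open Pool.Agent.P8H4.PK (DD mem_DD fixed_lf exists_gq toR)

variable {q : ℕ} [hq : Fact q.Prime]

/-- the roots of unity of order prime to `q` are all the residues -/
theorem teich (x : PadicAlgCl q) (hx : ‖x‖ = 1) :
    ∃ (z : PadicAlgCl q) (n : ℕ), z ^ n = 1 ∧ ‖(n : PadicAlgCl q)‖ = 1 ∧ ‖z - x‖ < 1 := by
  classical
  let VV := Pool.Agent.P8H4.PL.Fr.V q
  have hxV : x ∈ VV := (Pool.Agent.P8H4.PL.Fr.mem_V x).2 hx.le
  let x' : VV := ⟨x, hxV⟩
  set ξ : Pool.Agent.P8H4.PL.Fr.κ q := IsLocalRing.residue VV x' with hξ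
  have hint : IsIntegral (ZMod q) ξ := Pool.Agent.P8H4.PL.Fr.alg x'
  have hfd : FiniteDimensional (ZMod q) (IntermediateField.adjoin (ZMod q) {ξ}) :=
    IntermediateField.adjoin.finiteDimensional hint
  set E := IntermediateField.adjoin (ZMod q) {ξ} with hE
  have hfin : Finite E := Module.finite_of_finite (ZMod q)
  let i1 : Fintype E := Fintype.ofFinite _
  let y : E := ⟨ξ, IntermediateField.mem_adjoin_simple_self _ _⟩
  have hy0 : y ≠ 0 := by
    intro h
    have h1 : ξ = 0 := congrArg (fun t : E => (t : Pool.Agent.P8H4.PL.Fr.κ q)) h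
    rw [hξ, Pool.Agent.P8H4.PL.Fr.res_zero] at h1
    have h2 : ‖x‖ < 1 := h1
    rw [hx] at h2
    exact lt_irrefl _ h2
  have h1 : y ^ (Fintype.card E - 1) = 1 := FiniteField.pow_card_sub_one_eq_one y hy0
  have hcE : ∃ r : ℕ, 0 < r ∧ Fintype.card E = q ^ r := by
    have hch : CharP E q := charP_of_injective_algebraMap (algebraMap (ZMod q) E).injective q
    obtain ⟨n, hn, h⟩ := FiniteField.card E q
    exact ⟨n, n.2, h⟩
  obtain ⟨r, hr, hcr⟩ := hcE
  set n := Fintype.card E - 1 with hn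
  have h1c : 1 < Fintype.card E := Fintype.one_lt_card
  have hn0 : n ≠ 0 := by omega
  have hcop : n.Coprime q := by
    rw [Nat.coprime_comm, Nat.Prime.coprime_iff_not_dvd hq.out]
    intro h2
    have h3 : q ∣ Fintype.card E := by
      rw [hcr]
      exact dvd_pow_self q hr.ne'
    have h4 : q ∣ Fintype.card E - n := Nat.dvd_sub h3 h2
    have h5 : Fintype.card E - n = 1 := by omega
    rw [h5] at h4
    exact hq.out.one_lt.ne' (Nat.dvd_one.1 h4)
  have h2 : ‖x ^ n - 1‖ < 1 := by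
    have h3 : IsLocalRing.residue VV (x' ^ n - 1) = 0 := by
      rw [map_sub, map_pow, map_one, sub_eq_zero]
      exact congrArg (fun t : E => (t : Pool.Agent.P8H4.PL.Fr.κ q)) h1
    rw [Pool.Agent.P8H4.PL.Fr.res_zero] at h3
    exact h3
  obtain ⟨z, hz, hxz⟩ := exists_root naq hn0 h2
  refine ⟨z, n, hz, norm_nat hcop, ?_⟩
  rw [norm_sub_rev]
  exact hxz

/-- the closed unit ball of the local field is totally bounded -/
theorem tot {F : Type} [Field F] [NumberField F] (j : F →+* PadicAlgCl q) (ε : ℝ) (hε : 0 < ε) :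
    ∃ X : Finset (PadicAlgCl q), ∀ x : PadicAlgCl q, ‖x‖ ≤ 1 → x ∈ lf j →
      ∃ x' ∈ X, ‖x - x'‖ < ε := by
  classical
  have : ProperSpace (lf j) := FiniteDimensional.proper ℚ_[q] (lf j)
  have h1 : TotallyBounded (Metric.closedBall (0 : lf j) 1) :=
    (isCompact_closedBall (0 : lf j) 1).totallyBounded
  obtain ⟨t, ht, hc⟩ := Metric.totallyBounded_iff.1 h1 ε hε
  refine ⟨ht.toFinset.image (fun y : lf j => (y : PadicAlgCl q)), fun x hx hxl => ?_⟩
  have h2 : (⟨x, hxl⟩ : lf j) ∈ Metric.closedBall (0 : lf j) 1 := by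
    rw [mem_closedBall_zero_iff]
    exact hx
  have h3 := hc h2
  rw [Set.mem_iUnion₂] at h3
  obtain ⟨y, hy, hyx⟩ := h3
  refine ⟨y, Finset.mem_image_of_mem _ (ht.mem_toFinset.2 hy), ?_⟩
  rw [Metric.mem_ball, dist_eq_norm] at hyx
  exact hyx

variable {k K : Type} [Field k] [NumberField k] [Field K] [NumberField K] [Algebra k K]

theorem unif (j : K →+* PadicAlgCl q) (hR : ¬ Ram k (pls j)) :
    ∃ π : PadicAlgCl q, 0 < ‖π‖ ∧ ‖π‖ < 1 ∧ (∀ τ : DD (r0 k j), (τ : RingAut (PadicAlgCl q)) π = π) ∧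
    ∀ x : PadicAlgCl q, x ∈ lf j → ‖x‖ < 1 → ‖x‖ ≤ ‖π‖ := by
  obtain ⟨a, ha⟩ := (pls (r0 k j)).valuation_exists_uniformizer k
  have ha0 : a ≠ 0 := by
    rintro rfl
    rw [map_zero] at ha
    exact WithZero.exp_ne_zero ha.symm
  have hunder : (pls j).under (𝓞 k) = pls (r0 k j) := by
    apply HeightOneSpectrum.ext
    rfl
  have hval : ∀ x : k, (pls j).valuation K (algebraMap k K x) = (pls (r0 k j)).valuation k x := by
    intro x
    rw [val_rel (pls j) hR x, hunder]
  have hva : (pls j).valuation K (algebraMap k K a) = WithZero.exp (-1 : ℤ) := by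
    rw [hval, ha]
  have hva1 : (pls j).valuation K (algebraMap k K a) < 1 := by
    rw [hva, ← WithZero.exp_zero, WithZero.exp_lt_exp]
    norm_num
  have haK : algebraMap k K a ≠ 0 := (_root_.map_ne_zero _).2 ha0
  have hn0 : 0 < ‖j (algebraMap k K a)‖ := norm_pos_iff.2 ((_root_.map_ne_zero j).2 haK)
  have key : ∀ y : K, ‖j y‖ < 1 → ‖j y‖ ≤ ‖j (algebraMap k K a)‖ := by
    intro y hy
    have h1 : (pls j).valuation K y < 1 := by
      by_contra hcon
      rw [not_lt] at hcon
      have hy0 : y ≠ 0 := by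
        rintro rfl
        rw [map_zero] at hcon
        exact absurd hcon (by simp)
      have h2 : ‖j y⁻¹‖ ≤ 1 := by
        apply norm_le_one_of_val
        rw [map_inv₀]
        exact inv_le_one_of_one_le₀ hcon
      have h3 : 0 < ‖j y‖ := norm_pos_iff.2 ((_root_.map_ne_zero j).2 hy0)
      rw [map_inv₀, norm_inv, inv_le_one₀ h3] at h2
      linarith
    have h2 : (pls j).valuation K y ≤ (pls j).valuation K (algebraMap k K a) := by
      rw [hva]
      by_cases hy0 : y = 0
      · rw [hy0, map_zero]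
        exact zero_le
      · have h3 : (pls j).valuation K y ≠ 0 := (Valuation.ne_zero_iff _).2 hy0
        obtain ⟨m, hm⟩ : ∃ m : ℤ, (pls j).valuation K y = WithZero.exp m :=
          ⟨WithZero.log ((pls j).valuation K y), (WithZero.exp_log h3).symm⟩
        rw [hm, ← WithZero.exp_zero, WithZero.exp_lt_exp] at h1
        rw [hm, WithZero.exp_le_exp]
        omega
    have h3 : ‖j (y / algebraMap k K a)‖ ≤ 1 := by
      apply norm_le_one_of_val
      rw [map_div₀]
      exact (div_le_one₀ (zero_lt_iff.2 ((Valuation.ne_zero_iff _).2 haK))).2 h2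
    rw [map_div₀, norm_div, div_le_one hn0] at h3
    exact h3
  refine ⟨j (algebraMap k K a), hn0, ?_, fun τ => τ.2.2 a, fun x hx hx1 => ?_⟩
  · by_contra hcon
    rw [not_lt] at hcon
    have h2 : ‖j (algebraMap k K a)⁻¹‖ ≤ 1 := by
      rw [map_inv₀, norm_inv]
      exact inv_le_one_of_one_le₀ hcon
    have h3 := val_le_one_of_norm j h2
    rw [map_inv₀, inv_le_one₀ (zero_lt_iff.2 ((Valuation.ne_zero_iff _).2 haK))] at h3
    exact absurd hva1 (not_lt.2 h3)
  · by_cases hx0 : x = 0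
    · rw [hx0, norm_zero]
      exact hn0.le
    obtain ⟨y, hy⟩ := approx j hx (norm_pos_iff.2 hx0)
    have h1 : ‖j y‖ = ‖x‖ := by
      apply le_antisymm
      · have e : j y = x - (x - j y) := by ring
        rw [e]
        exact (na_sub naq _ _).trans (max_le le_rfl hy.le)
      · by_contra hlt
        rw [not_le] at hlt
        have e : x = (x - j y) + j y := by ring
        have h2 : ‖x‖ < ‖x‖ := by
          conv_lhs => rw [e]
          exact (naq _ _).trans_lt (max_lt hy hlt)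
        exact lt_irrefl _ h2
    rw [← h1]
    exact key y (by rw [h1]; exact hx1)

theorem si : S_SI := by
  intro q _ k K _ _ _ _ _ _ p n hp hn j hR
  classical
  set j0 := r0 k j with hj0
  have hDle : DD j ≤ DD j0 := fun _ hτ => ⟨hτ.1, fun _ => hτ.2 _⟩
  set N : Subgroup (DD j0) := (DD j).subgroupOf (DD j0) with hN'
  have hN : ∀ τ : DD j0, τ ∈ N ↔ (τ : RingAut (PadicAlgCl q)) ∈ DD j := fun τ =>
    Subgroup.mem_subgroupOf
  have hjx : ∀ (g : DD j0) (x : k), g.1 (j (algebraMap k K x)) = j (algebraMap k K x) :=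
    fun g x => g.2.2 x
  obtain ⟨-, hnor, m, hm⟩ := relindex (k := k) hp hn (DD j0).subtype j
    (⊤ : Subgroup (DD j0)) N
    (fun g => ⟨fun _ x => hjx g x, fun _ => trivial⟩)
    (fun g => ⟨fun h => ((hN g).1 h).2, fun h => (hN g).2 ⟨g.2.1, h⟩⟩)
  have hnorm : N.Normal := ⟨fun τ hτ σ => by
    have := hnor σ⁻¹ trivial τ hτ
    rwa [inv_inv] at this⟩
  rw [Subgroup.relIndex_top_right] at hm
  -- the generator
  obtain ⟨z, hzlf, hzord, hz1, hzres⟩ := exists_gen j
  have hcop := cop_qr j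
  have hn1 : qr j - 1 ≠ 0 := by
    have := one_lt_qr j
    omega
  have hznorm : ‖z‖ = 1 := root_norm hn1 hz1
  obtain ⟨φ', hφ', hφz⟩ := exists_frob hcop hz1 j0
  set φ : DD j0 := ⟨φ', hφ'⟩ with hφ
  set Q := qr j0 with hQ
  obtain ⟨f, hf, hQf⟩ := qr_pow_rel (k := k) j
  have hφpow : ∀ i : ℕ, ((φ ^ i : DD j0) : RingAut (PadicAlgCl q)) z = z ^ Q ^ i := by
    intro i
    induction i with
    | zero => rw [pow_zero, pow_zero, pow_one]; rfl
    | succ i ih =>
      rw [pow_succ]
      show ((φ ^ i : DD j0) : RingAut (PadicAlgCl q)) (φ' z) = _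
      rw [hφz, map_pow, ih, ← pow_mul, pow_succ]
  -- an element of `D0` which fixes `z` is in `N`
  obtain ⟨S, hS1, hS2⟩ := unr_set (k := k) j hR
  have hresK : ∀ a : 𝓞 K, ‖j (algebraMap (𝓞 K) K a)‖ < 1 ∨
      ∃ i : ℕ, ‖j (algebraMap (𝓞 K) K a) - z ^ i‖ < 1 := fun a =>
    hzres _ (norm_int j a) (int_pow j a)
  have hmemN : ∀ τ : DD j0, (τ : RingAut (PadicAlgCl q)) z = z → τ ∈ N := by
    intro τ hτ
    -- trivial on residues of integers
    have h1 : ∀ a : 𝓞 K, ‖(τ : RingAut (PadicAlgCl q)) (j (algebraMap (𝓞 K) K a)) -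
        j (algebraMap (𝓞 K) K a)‖ < 1 := by
      intro a
      rcases hresK a with h | ⟨i, h⟩
      · refine (na_sub naq _ _).trans_lt (max_lt ?_ h)
        rw [τ.2.1]
        exact h
      · have h2 : ‖(τ : RingAut (PadicAlgCl q)) (j (algebraMap (𝓞 K) K a)) - z ^ i‖ < 1 := by
          have h3 : z ^ i = (τ : RingAut (PadicAlgCl q)) (z ^ i) := by rw [map_pow, hτ]
          rw [h3, ← map_sub, τ.2.1]
          exact h
        refine tri_lt naq h2 ?_
        rw [norm_sub_rev]
        exact h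
    obtain ⟨σ, hσ⟩ := gal_of_fix (k := k) (τ : RingAut (PadicAlgCl q)) j (fun x => τ.2.2 x)
    have h2 : σ = 1 := by
      apply Pool.Agent.P8H4.PL.inertia_one (pls j) hR
      intro y
      show ‖j (algebraMap (𝓞 K) K (σ • y - y))‖ < 1
      rw [map_sub, map_sub]
      have h3 : j (algebraMap (𝓞 K) K (σ • y)) =
          (τ : RingAut (PadicAlgCl q)) (j (algebraMap (𝓞 K) K y)) := by
        rw [hσ]
        rfl
      rw [h3]
      exact h1 y
    rw [hN]
    refine ⟨τ.2.1, fun x => ?_⟩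
    rw [hσ, h2]
    rfl
  have hfixN : ∀ τ ∈ N, (τ : RingAut (PadicAlgCl q)) z = z := fun τ hτ =>
    DD_fix_lf ((hN τ).1 hτ) hzlf
  -- the elements of `D0` modulo `N`
  have hgen : ∀ τ : DD j0, ∃ i : ℕ, (φ ^ i)⁻¹ * τ ∈ N := by
    intro τ
    obtain ⟨i, hi⟩ := act_pow (k := k) j τ τ.2
    refine ⟨i, hmemN _ ?_⟩
    -- `z` is congruent to an integer
    obtain ⟨a, ha⟩ := approx_int j hzlf hznorm.le
    have h1 : ‖(τ : RingAut (PadicAlgCl q)) z - z ^ Q ^ i‖ < 1 := by
      have h2 : ‖(τ : RingAut (PadicAlgCl q)) z -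
          (τ : RingAut (PadicAlgCl q)) (j (algebraMap (𝓞 K) K a))‖ < 1 := by
        rw [← map_sub, τ.2.1]
        exact ha
      refine tri_lt naq h2 (tri_lt naq (hi a) ?_)
      rw [norm_sub_rev]
      exact pow_cong naq hznorm.le (norm_int j a) ha _
    have h2 : (τ : RingAut (PadicAlgCl q)) z = z ^ Q ^ i := by
      refine root_eq naq (n := qr j - 1) ?_ ?_ (norm_nat hcop) h1
      · rw [← map_pow, hz1, map_one]
      · rw [← pow_mul, mul_comm, pow_mul, hz1, one_pow]
    have h3 : (((φ ^ i)⁻¹ * τ : DD j0) : RingAut (PadicAlgCl q)) z =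
        (((φ ^ i)⁻¹ : DD j0) : RingAut (PadicAlgCl q)) ((τ : RingAut (PadicAlgCl q)) z) := rfl
    rw [h3, h2, ← hφpow i]
    exact RingEquiv.symm_apply_apply ((φ ^ i : DD j0) : RingAut (PadicAlgCl q)) z
  -- the order
  have hφf : φ ^ f ∈ N := by
    apply hmemN
    rw [hφpow, ← hQf]
    have e : qr j = (qr j - 1) + 1 := by
      have := one_lt_qr j
      omega
    rw [e, pow_succ, hz1, one_mul]
  let φq : DD j0 ⧸ N := (φ : DD j0 ⧸ N)
  have hcard : orderOf φq = p ^ m := by
    have h1 : ∀ x : DD j0 ⧸ N, x ∈ Subgroup.zpowers φq := by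
      intro x
      obtain ⟨τ, rfl⟩ := QuotientGroup.mk_surjective x
      obtain ⟨i, hi⟩ := hgen τ
      refine ⟨i, ?_⟩
      show φq ^ (i : ℤ) = _
      rw [zpow_natCast]
      exact (QuotientGroup.eq).2 hi
    rw [orderOf_eq_card_of_forall_mem_zpowers h1, ← hm]
    rfl
  have hφM : φ ^ p ^ m ∈ N := by
    rw [← QuotientGroup.eq_one_iff]
    have := pow_orderOf_eq_one φq
    rw [hcard] at this
    exact this
  have hfM : f = p ^ m := by
    apply le_antisymm
    · have h1 := hφpow (p ^ m)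
      rw [hfixN _ hφM] at h1
      -- `z ^ (Q ^ M - 1) = 1`
      have hQM : 1 < Q ^ p ^ m := Nat.one_lt_pow (pow_ne_zero _ hp.ne_zero) (one_lt_qr j0)
      have h2 : z ^ (Q ^ p ^ m - 1) = 1 := by
        have hz0 : z ≠ 0 := by
          rintro rfl
          rw [norm_zero] at hznorm
          exact zero_ne_one hznorm
        apply mul_right_cancel₀ hz0
        rw [← pow_succ, one_mul, Nat.sub_add_cancel hQM.le]
        exact h1.symm
      have h3 : qr j - 1 ∣ Q ^ p ^ m - 1 := by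
        rw [← hzord]
        exact orderOf_dvd_of_pow_eq_one h2
      have h4 : qr j - 1 ≤ Q ^ p ^ m - 1 := Nat.le_of_dvd (by omega) h3
      have h5 : Q ^ f ≤ Q ^ p ^ m := by
        rw [← hQf]
        have := one_lt_qr j
        omega
      exact (Nat.pow_le_pow_iff_right (one_lt_qr j0)).1 h5
    · rw [← hcard]
      apply Nat.le_of_dvd hf
      apply orderOf_dvd_of_pow_eq_one
      have := (QuotientGroup.eq_one_iff (N := N) (φ ^ f)).2 hφf
      exact this
  have hqrj : qr j = Q ^ p ^ m := by rw [hQf, hfM]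
  refine ⟨φ, m, Q, ?_⟩
  obtain ⟨r, hr, hQr⟩ := qr_pow j0
  have hlfN : ∀ x : PadicAlgCl q, (∀ σ ∈ N, (σ : RingAut (PadicAlgCl q)) x = x) → x ∈ lf j := by
    intro x hx
    apply fixed_lf j
    intro τ hτ
    exact hx ⟨τ, hDle hτ⟩ ((hN _).2 hτ)
  refine
    { na := naq
      hp := hp
      iso := fun τ x => τ.2.1 x
      nor := hnorm
      phiM := hφM
      gen := hgen
      Q2 := one_lt_qr j0
      resc := ⟨q, r, Fact.out, hQr, norm_q⟩
      frob := ?_
      triv := ?_
      resfix := ?_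
      teich := teich
      unif := ?_
      tb := ?_ }
  · intro x hx hxq
    rw [← hqrj] at hxq
    rcases hzres x hx hxq with h | ⟨i, h⟩
    · refine (na_sub naq _ _).trans_lt (max_lt ?_ ?_)
      · rw [φ.2.1]
        exact h
      · rw [norm_pow]
        exact pow_lt_one₀ (norm_nonneg _) h (by have := one_lt_qr j0; omega)
    · have h1 : ‖(φ : RingAut (PadicAlgCl q)) x - (φ : RingAut (PadicAlgCl q)) (z ^ i)‖ < 1 := by
        rw [← map_sub, φ.2.1]
        exact h
      have h2 : (φ : RingAut (PadicAlgCl q)) (z ^ i) = (z ^ i) ^ Q := by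
        rw [map_pow]
        show φ' z ^ i = _
        rw [hφz, ← pow_mul, ← pow_mul, mul_comm]
      rw [h2] at h1
      refine tri_lt naq h1 ?_
      rw [norm_sub_rev]
      refine pow_cong naq hx ?_ h Q
      rw [norm_pow, hznorm, one_pow]
  · intro σ hσ x hx hxq
    rw [← hqrj] at hxq
    rcases hzres x hx hxq with h | ⟨i, h⟩
    · refine (na_sub naq _ _).trans_lt (max_lt ?_ h)
      rw [σ.2.1]
      exact h
    · have h1 : ‖(σ : RingAut (PadicAlgCl q)) x - (σ : RingAut (PadicAlgCl q)) (z ^ i)‖ < 1 := by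
        rw [← map_sub, σ.2.1]
        exact h
      rw [map_pow, hfixN σ hσ] at h1
      refine tri_lt naq h1 ?_
      rw [norm_sub_rev]
      exact h
  · intro x hx hfix
    rw [← hqrj]
    exact lf_pow j (hlfN x hfix) hx
  · obtain ⟨π, h1, h2, h3, h4⟩ := unif (k := k) j hR
    exact ⟨π, h1, h2, h3, fun x hx => h4 x (hlfN x hx)⟩
  · intro ε hε
    obtain ⟨X, hX⟩ := tot j ε hε
    exact ⟨X, fun x hx hfix => hX x hx (hlfN x hfix)⟩

end Pool.Agent.P8H17.UL
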