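import Pool.Agent.P8H17.UL.Core
import Pool.Agent.P8H17.UL.SI
import Pool.Agent.P8H17.UL.Pls

/-!
# Project UL: the interface
-/

set_option autoImplicit false

open WeierstrassCurve NumberField IsDedekindDomain

namespace Pool.Agent.P8H17.UL

open Pool.Agent.TH841.NF (pls norm_int)
open Pool.Agent.P8H4.PK (DD)
open Pool.Agent.P8H4.PL (Ram)

section

variable {q : ℕ} [Fact q.Prime] {F : Type} [Field F] [NumberField F]

lemma intW_of {W : WeierstrassCurve (𝓞 F)} (hΔ : W.Δ ≠ 0) (j : F →+* PadicAlgCl q)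
    {V : WeierstrassCurve (PadicAlgCl q)} (hV : W.map (j.comp (algebraMap (𝓞 F) F)) = V) :
    IntW V := by
  subst hV
  refine ⟨norm_int j _, norm_int j _, norm_int j _, norm_int j _, norm_int j _, ?_⟩
  rw [WeierstrassCurve.map_Δ]
  intro h
  apply hΔ
  apply FaithfulSMul.algebraMap_injective (𝓞 F) F
  rw [map_zero]
  apply j.injective
  rw [map_zero]
  exact h

end

section

variable {q : ℕ} [Fact q.Prime] {k K : Type} [Field k] [NumberField k] [Field K] [NumberField K]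
  [Algebra k K]

lemma map_K {W : WeierstrassCurve (𝓞 k)} (j : K →+* PadicAlgCl q)
    {V : WeierstrassCurve (PadicAlgCl q)}
    (hV : W.map ((j.comp (algebraMap k K)).comp (algebraMap (𝓞 k) k)) = V) :
    (W.map (algebraMap (𝓞 k) (𝓞 K))).map (j.comp (algebraMap (𝓞 K) K)) = V := by
  rw [WeierstrassCurve.map_map, ← hV]
  rfl

/-- the indices -/
theorem idx (hCM : S_CM) [IsGalois k K] {p n : ℕ} (hp : p.Prime)
    (hn : Module.finrank k K = p ^ n) {W : WeierstrassCurve (𝓞 k)} (hΔ : W.Δ ≠ 0)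
    (j : K →+* PadicAlgCl q) (hR : ¬ Ram k (pls j)) {V : WeierstrassCurve (PadicAlgCl q)}
    (hW : W.map ((j.comp (algebraMap k K)).comp (algebraMap (𝓞 k) k)) = V)
    (hV : FixW V (DD (j.comp (algebraMap k K)))) (E : AddSubgroup (Pt V))
    (hE : ∀ P, P ∈ E ↔ NS P) :
    (p ∣ E.relIndex (Fix hV ((DD j).subgroupOf (DD (j.comp (algebraMap k K))))) ↔
      p ∣ tnG W (pls (j.comp (algebraMap k K)))) ∧
    (p ∣ tnG (W.map (algebraMap (𝓞 k) (𝓞 K))) (pls j) ↔
      p ∣ tnG W (pls (j.comp (algebraMap k K)))) := by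
  obtain ⟨φ, m, Q, hS⟩ := si q k K p n hp hn j hR
  have hI : IntW V := intW_of hΔ _ hW
  obtain ⟨h1, -, -⟩ := t_ta (PadicAlgCl q) _ _ φ p m Q hS V hI hV E hE
  have h2 := hCM q K j (W.map (algebraMap (𝓞 k) (𝓞 K))) V (map_K j hW)
    (DD (j.comp (algebraMap k K))) (fun _ hτ => ⟨hτ.1, fun _ => hτ.2 _⟩) hV E hE
  have h3 := hCM q k (j.comp (algebraMap k K)) W V hW
    (DD (j.comp (algebraMap k K))) le_rfl hV E hE
  rw [Subgroup.subgroupOf_self] at h3
  rw [← h2, ← h3]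
  exact ⟨h1, h1⟩

end

theorem lp (hCM : S_CM) : S_LP := by
  intro q _ k K _ _ _ _ _ _ p n hp hn W hΔ j j0 hj V hW hV hR hc c hcoc P hP
  subst hj
  have hI : IntW V := intW_of hΔ _ hW
  obtain ⟨φ, m, Q, hS⟩ := si q k K p n hp hn j hR
  obtain ⟨E, hE⟩ := t_en (PadicAlgCl q) naq V hI
  obtain ⟨h1, -⟩ := idx hCM hp hn hΔ j hR hW hV E hE
  exact t_lt (PadicAlgCl q) _ _ φ p m Q hS V hI hV E hE (fun h => hc (h1.1 h)) c hcoc P
    (fun σ hσ => hP σ (Subgroup.mem_subgroupOf.1 hσ))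

theorem lv (hCM : S_CM) (hLT : S_LTg) : S_LV := by
  intro q _ k K _ _ _ _ _ _ p n hp hn W hΔ j j0 hj V hW hV hR hc g R hRN c hcoc P hP
  subst hj
  have hI : IntW V := intW_of hΔ _ hW
  obtain ⟨φ, m, Q, hS⟩ := si q k K p n hp hn j hR
  obtain ⟨E, hE⟩ := t_en (PadicAlgCl q) naq V hI
  obtain ⟨h1, -⟩ := idx hCM hp hn hΔ j hR hW hV E hE
  exact hLT (PadicAlgCl q) _ _ φ p m Q hS V hI hV E hE (fun h => hc (h1.1 h)) g R
    (fun σ hσ => hRN σ (Subgroup.mem_subgroupOf.1 hσ)) c hcoc P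
    (fun σ hσ i => hP σ (Subgroup.mem_subgroupOf.1 hσ) i)

theorem tn_iff (hCM : S_CM) : S_TN := by
  intro k K _ _ _ _ _ _ p n hp hn W hΔ v hR
  obtain ⟨q, hq, j, hj⟩ := exists_pls K v
  subst hj
  have hunder : (pls j).under (𝓞 k) = pls (j.comp (algebraMap k K)) := by
    apply HeightOneSpectrum.ext
    rfl
  rw [hunder]
  set V : WeierstrassCurve (PadicAlgCl q) :=
    W.map ((j.comp (algebraMap k K)).comp (algebraMap (𝓞 k) k)) with hV
  have hfix : FixW V (DD (j.comp (algebraMap k K))) := by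
    intro τ hτ
    rw [hV, WeierstrassCurve.map_map]
    congr 1
    exact RingHom.ext fun x => hτ.2 _
  have hI : IntW V := intW_of hΔ _ rfl
  obtain ⟨E, hE⟩ := t_en (PadicAlgCl q) naq V hI
  exact (idx hCM hp hn hΔ j hR rfl hfix E hE).2

end Pool.Agent.P8H17.UL
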