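import Pool.Agent.P8H17.UL.Stm2

/-!
# Project UL: residues of the local fields
-/

set_option autoImplicit false

open NumberField IsDedekindDomain Polynomial

namespace Pool.Agent.P8H17.UL

open Pool.Agent.TH841.NF (pid mem_pid pls lf mem_lf norm_int norm_le_one_of_val)
open Pool.Agent.P8H4.PL.Fr (Gq norm_eqv)
open Pool.Agent.P8H4.PL (fixed_mem approx_int cls_iff mem_Dj)
open Pool.Agent.P8H4.PK (DD mem_DD fixed_lf)

section gen

variable {Ω : Type} [NormedField Ω] (na : ∀ x y : Ω, ‖x + y‖ ≤ max ‖x‖ ‖y‖)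

include na

lemma na_sub (x y : Ω) : ‖x - y‖ ≤ max ‖x‖ ‖y‖ := by
  rw [sub_eq_add_neg, ← norm_neg y]
  exact na _ _

lemma tri_lt {x y z : Ω} {c : ℝ} (h1 : ‖x - y‖ < c) (h2 : ‖y - z‖ < c) : ‖x - z‖ < c := by
  have e : x - z = (x - y) + (y - z) := by ring
  rw [e]
  exact (na _ _).trans_lt (max_lt h1 h2)

lemma mul_cong {x y x' y' : Ω} (hx : ‖x‖ ≤ 1) (hy' : ‖y'‖ ≤ 1) (h1 : ‖x - x'‖ < 1)
    (h2 : ‖y - y'‖ < 1) : ‖x * y - x' * y'‖ < 1 := by
  have e : x * y - x' * y' = x * (y - y') + (x - x') * y' := by ring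
  rw [e]
  refine (na _ _).trans_lt (max_lt ?_ ?_)
  · rw [norm_mul]
    exact (mul_le_of_le_one_left (norm_nonneg _) hx).trans_lt h2
  · rw [norm_mul]
    exact (mul_le_of_le_one_right (norm_nonneg _) hy').trans_lt h1

lemma pow_cong {x y : Ω} (hx : ‖x‖ ≤ 1) (hy : ‖y‖ ≤ 1) (h : ‖x - y‖ < 1) (n : ℕ) :
    ‖x ^ n - y ^ n‖ < 1 := by
  induction n with
  | zero => simp
  | succ n ih =>
    rw [pow_succ, pow_succ]
    refine mul_cong na ?_ hy ih h
    rw [norm_pow]
    exact pow_le_one₀ (norm_nonneg _) hx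

lemma nat_le (n : ℕ) : ‖(n : Ω)‖ ≤ 1 := by
  induction n with
  | zero => simp
  | succ n ih =>
    rw [Nat.cast_succ]
    refine (na _ _).trans (max_le ih ?_)
    rw [norm_one]

/-- two roots of unity of order prime to the residue characteristic with the same residue -/
lemma root_eq {x y : Ω} {n : ℕ} (hx : x ^ n = 1) (hy : y ^ n = 1) (hn : ‖(n : Ω)‖ = 1)
    (h : ‖x - y‖ < 1) : x = y := by
  have hn0 : n ≠ 0 := by
    rintro rfl
    rw [Nat.cast_zero, norm_zero] at hn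
    exact zero_ne_one hn
  have hx1 : ‖x‖ = 1 := by
    have := congrArg norm hx
    rw [norm_pow, norm_one] at this
    exact (pow_eq_one_iff_of_nonneg (norm_nonneg _) hn0).1 this
  have hy1 : ‖y‖ = 1 := by
    have := congrArg norm hy
    rw [norm_pow, norm_one] at this
    exact (pow_eq_one_iff_of_nonneg (norm_nonneg _) hn0).1 this
  by_contra hne
  have h1 : (∑ i ∈ Finset.range n, x ^ i * y ^ (n - 1 - i)) * (x - y) = 0 := by
    rw [Commute.geom_sum₂_mul (Commute.all x y), hx, hy, sub_self]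
  have h2 : ∑ i ∈ Finset.range n, x ^ i * y ^ (n - 1 - i) = 0 :=
    (mul_eq_zero.1 h1).resolve_right (sub_ne_zero.2 hne)
  have h3 : ∀ s : Finset ℕ, (∀ i ∈ s, i < n) →
      ‖∑ i ∈ s, (x ^ i * y ^ (n - 1 - i) - y ^ (n - 1))‖ < 1 := by
    intro s
    induction s using Finset.induction_on with
    | empty => intro _; simp
    | insert a s ha ih =>
      intro hs
      rw [Finset.sum_insert ha]
      refine (na _ _).trans_lt (max_lt ?_ (ih fun i hi => hs i (Finset.mem_insert_of_mem hi)))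
      have h4 : a < n := hs a (Finset.mem_insert_self _ _)
      have h5 : y ^ (n - 1) = y ^ a * y ^ (n - 1 - a) := by
        rw [← pow_add]
        congr 1
        omega
      rw [h5]
      refine mul_cong na ?_ ?_ (pow_cong na hx1.le hy1.le h a) ?_
      · rw [norm_pow, hx1, one_pow]
      · rw [norm_pow, hy1, one_pow]
      · rw [sub_self, norm_zero]; exact one_pos
  have h4 := h3 (Finset.range n) (fun i hi => Finset.mem_range.1 hi)
  rw [Finset.sum_sub_distrib, h2, Finset.sum_const, Finset.card_range, zero_sub, norm_neg,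
    nsmul_eq_mul, norm_mul, hn, norm_pow, hy1, one_pow, one_mul] at h4
  exact lt_irrefl _ h4

omit na in
lemma root_norm {x : Ω} {n : ℕ} (hn : n ≠ 0) (hx : x ^ n = 1) : ‖x‖ = 1 := by
  have := congrArg norm hx
  rw [norm_pow, norm_one] at this
  exact (pow_eq_one_iff_of_nonneg (norm_nonneg _) hn).1 this

/-- a residue which is a root of unity of order `n` lifts to a root of unity -/
lemma exists_root [IsAlgClosed Ω] [CharZero Ω] {x : Ω} {n : ℕ} (hn : n ≠ 0)
    (h : ‖x ^ n - 1‖ < 1) : ∃ y : Ω, y ^ n = 1 ∧ ‖x - y‖ < 1 := by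
  classical
  have hsp : (X ^ n - 1 : Polynomial Ω).Splits := IsAlgClosed.splits _
  have hne : (X ^ n - 1 : Polynomial Ω) ≠ 0 := (monic_X_pow_sub_C (1 : Ω) hn).ne_zero
  have hmon : (X ^ n - 1 : Polynomial Ω).Monic := monic_X_pow_sub_C (1 : Ω) hn
  have h1 : (X ^ n - 1 : Polynomial Ω) = ((X ^ n - 1 : Polynomial Ω).roots.map fun a => X - C a).prod := by
    have := hsp.eq_prod_roots
    rw [hmon.leadingCoeff, C_1, one_mul] at this
    exact this
  have h2 : x ^ n - 1 = ((X ^ n - 1 : Polynomial Ω).roots.map fun a => x - a).prod := by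
    have h3 := congrArg (eval x) h1
    rw [eval_multiset_prod, Multiset.map_map] at h3
    simpa using h3
  have key : ∀ s : Multiset Ω, ‖(s.map fun a => x - a).prod‖ < 1 → ∃ a ∈ s, ‖x - a‖ < 1 := by
    intro s
    induction s using Multiset.induction_on with
    | empty => intro h; simp at h
    | cons a s ih =>
      intro h
      rw [Multiset.map_cons, Multiset.prod_cons, norm_mul] at h
      by_cases h3 : ‖x - a‖ < 1
      · exact ⟨a, Multiset.mem_cons_self _ _, h3⟩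
      · rw [not_lt] at h3
        obtain ⟨b, hb, hb2⟩ := ih (lt_of_le_of_lt (le_mul_of_one_le_left (norm_nonneg _) h3) h)
        exact ⟨b, Multiset.mem_cons_of_mem hb, hb2⟩
  rw [h2] at h
  obtain ⟨a, ha, ha2⟩ := key _ h
  refine ⟨a, ?_, ha2⟩
  rw [mem_roots hne, IsRoot.def] at ha
  have : a ^ n - 1 = 0 := by simpa using ha
  exact sub_eq_zero.1 this

end gen

section padic

variable {q : ℕ} [hq : Fact q.Prime]

lemma naq (x y : PadicAlgCl q) : ‖x + y‖ ≤ max ‖x‖ ‖y‖ := IsUltrametricDist.norm_add_le_max _ _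

lemma norm_q : ‖((q : ℕ) : PadicAlgCl q)‖ < 1 := by
  have h1 : ((q : ℕ) : PadicAlgCl q) = algebraMap ℚ_[q] (PadicAlgCl q) ((q : ℕ) : ℚ_[q]) := by
    rw [map_natCast]
  rw [h1, Pool.Agent.P8H4.PL.Fr.norm_pad]
  exact Padic.norm_p_lt_one

variable {F : Type} [Field F] [NumberField F] (j : F →+* PadicAlgCl q)

/-- the number of elements of the residue field -/
noncomputable def qr : ℕ := Nat.card (𝓞 F ⧸ (pls j).asIdeal)

instance fin_res : Finite (𝓞 F ⧸ (pls j).asIdeal) :=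
  Ideal.finiteQuotientOfFreeOfNeBot _ (pls j).ne_bot

lemma res_char : CharP (𝓞 F ⧸ (pls j).asIdeal) q := by
  have hmax : (pls j).asIdeal.IsMaximal := (pls j).isMaximal
  let _ : Field (𝓞 F ⧸ (pls j).asIdeal) := Ideal.Quotient.field _
  have h0 : ((q : ℕ) : 𝓞 F ⧸ (pls j).asIdeal) = 0 := by
    have h1 : ((q : ℕ) : 𝓞 F) ∈ (pls j).asIdeal := by
      show ‖j (algebraMap (𝓞 F) F ((q : ℕ) : 𝓞 F))‖ < 1
      rw [map_natCast, map_natCast]
      exact norm_q
    rw [← map_natCast (Ideal.Quotient.mk (pls j).asIdeal), Ideal.Quotient.eq_zero_iff_mem]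
    exact h1
  exact (CharP.charP_iff_prime_eq_zero hq.out).2 h0

lemma qr_pow : ∃ r : ℕ, 0 < r ∧ qr j = q ^ r := by
  have hmax : (pls j).asIdeal.IsMaximal := (pls j).isMaximal
  let _ : Field (𝓞 F ⧸ (pls j).asIdeal) := Ideal.Quotient.field _
  have := res_char j
  have : Fintype (𝓞 F ⧸ (pls j).asIdeal) := Fintype.ofFinite _
  obtain ⟨n, hn, h⟩ := FiniteField.card (𝓞 F ⧸ (pls j).asIdeal) q
  refine ⟨n, n.2, ?_⟩
  unfold qr
  rw [Nat.card_eq_fintype_card]
  exact h

lemma one_lt_qr : 1 < qr j := by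
  obtain ⟨r, hr, h⟩ := qr_pow j
  rw [h]
  exact Nat.one_lt_pow hr.ne' hq.out.one_lt

lemma norm_nat {n : ℕ} (hn : n.Coprime q) : ‖((n : ℕ) : PadicAlgCl q)‖ = 1 := by
  refine le_antisymm (nat_le naq n) ?_
  by_contra hlt
  rw [not_le] at hlt
  have h1 : (n : ℤ) * (Nat.gcdA n q) + (q : ℤ) * (Nat.gcdB n q) = 1 := by
    have := Nat.gcd_eq_gcd_ab n q
    rw [hn.gcd_eq_one] at this
    exact_mod_cast this.symm
  have h2 : ((n : ℕ) : PadicAlgCl q) * ((Nat.gcdA n q : ℤ) : PadicAlgCl q) +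
      ((q : ℕ) : PadicAlgCl q) * ((Nat.gcdB n q : ℤ) : PadicAlgCl q) = 1 := by
    exact_mod_cast congrArg (fun z : ℤ => (z : PadicAlgCl q)) h1
  have hint : ∀ z : ℤ, ‖(z : PadicAlgCl q)‖ ≤ 1 := by
    intro z
    obtain ⟨m, rfl | rfl⟩ := z.eq_nat_or_neg
    · rw [Int.cast_natCast]; exact nat_le naq m
    · rw [Int.cast_neg, norm_neg, Int.cast_natCast]; exact nat_le naq m
  have h3 : ‖(1 : PadicAlgCl q)‖ < 1 := by
    rw [← h2]
    refine (naq _ _).trans_lt (max_lt ?_ ?_)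
    · rw [norm_mul]
      exact (mul_le_of_le_one_right (norm_nonneg _) (hint _)).trans_lt hlt
    · rw [norm_mul]
      exact (mul_le_of_le_one_right (norm_nonneg _) (hint _)).trans_lt norm_q
  rw [norm_one] at h3
  exact lt_irrefl _ h3

lemma cop_qr : (qr j - 1).Coprime q := by
  obtain ⟨r, hr, h⟩ := qr_pow j
  rw [Nat.coprime_comm, Nat.Prime.coprime_iff_not_dvd hq.out]
  intro h1
  have h2 : q ∣ qr j := by
    rw [h]
    exact dvd_pow_self q hr.ne'
  have h3 : q ∣ qr j - (qr j - 1) := Nat.dvd_sub h2 h1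
  have h4 : qr j - (qr j - 1) = 1 := by
    have := one_lt_qr j
    omega
  rw [h4] at h3
  exact hq.out.one_lt.ne' (Nat.dvd_one.1 h3)

lemma int_pow (a : 𝓞 F) :
    ‖(j (algebraMap (𝓞 F) F a)) ^ qr j - j (algebraMap (𝓞 F) F a)‖ < 1 := by
  have hmax : (pls j).asIdeal.IsMaximal := (pls j).isMaximal
  let _ : Field (𝓞 F ⧸ (pls j).asIdeal) := Ideal.Quotient.field _
  have : Fintype (𝓞 F ⧸ (pls j).asIdeal) := Fintype.ofFinite _
  have h1 : (Ideal.Quotient.mk (pls j).asIdeal a) ^ qr j = Ideal.Quotient.mk _ a := by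
    unfold qr
    rw [Nat.card_eq_fintype_card]
    exact FiniteField.pow_card _
  rw [← map_pow, cls_iff, map_pow, map_pow] at h1
  exact h1

/-- the residues of the elements of the local field -/
lemma lf_pow {x : PadicAlgCl q} (hx : x ∈ lf j) (h1 : ‖x‖ ≤ 1) : ‖x ^ qr j - x‖ < 1 := by
  obtain ⟨a, ha⟩ := approx_int j hx h1
  have h2 := int_pow j a
  have h3 := pow_cong naq h1 (norm_int j a) ha (qr j)
  refine tri_lt naq h3 (tri_lt naq h2 ?_)
  rw [norm_sub_rev]
  exact ha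

/-- the generator of the group of roots of unity of the local field -/
lemma exists_gen : ∃ z : PadicAlgCl q, z ∈ lf j ∧ orderOf z = qr j - 1 ∧ z ^ (qr j - 1) = 1 ∧
    ∀ x : PadicAlgCl q, ‖x‖ ≤ 1 → ‖x ^ qr j - x‖ < 1 → ‖x‖ < 1 ∨ ∃ i : ℕ, ‖x - z ^ i‖ < 1 := by
  classical
  have hmax : (pls j).asIdeal.IsMaximal := (pls j).isMaximal
  let _ : Field (𝓞 F ⧸ (pls j).asIdeal) := Ideal.Quotient.field _
  have : Fintype (𝓞 F ⧸ (pls j).asIdeal) := Fintype.ofFinite _
  set n := qr j - 1 with hn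
  have hn0 : n ≠ 0 := by
    have := one_lt_qr j
    omega
  have hnn : qr j = n + 1 := by
    have := one_lt_qr j
    omega
  have hnorm : ‖((n : ℕ) : PadicAlgCl q)‖ = 1 := norm_nat (cop_qr j)
  obtain ⟨g, hg⟩ := IsCyclic.exists_generator (α := (𝓞 F ⧸ (pls j).asIdeal)ˣ)
  obtain ⟨a, ha⟩ := Ideal.Quotient.mk_surjective (I := (pls j).asIdeal) (g : 𝓞 F ⧸ (pls j).asIdeal)
  have hordg : orderOf g = n := by
    rw [orderOf_eq_card_of_forall_mem_zpowers hg, Nat.card_eq_fintype_card, Fintype.card_units, hn]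
    unfold qr
    rw [Nat.card_eq_fintype_card]
  have hag : ∀ d : ℕ, ‖(j (algebraMap (𝓞 F) F a)) ^ d - 1‖ < 1 → n ∣ d := by
    intro d hd
    have h1 : Ideal.Quotient.mk (pls j).asIdeal (a ^ d) = Ideal.Quotient.mk _ 1 := by
      rw [cls_iff, map_pow, map_pow, map_one, map_one]
      exact hd
    rw [map_pow, ha, map_one] at h1
    rw [← hordg]
    apply orderOf_dvd_of_pow_eq_one
    ext
    rw [Units.val_pow_eq_pow_val]
    exact h1
  have hroot : ‖(j (algebraMap (𝓞 F) F a)) ^ n - 1‖ < 1 := by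
    have h1 : g ^ n = 1 := by rw [← hordg]; exact pow_orderOf_eq_one g
    have h2 : Ideal.Quotient.mk (pls j).asIdeal (a ^ n) = Ideal.Quotient.mk _ 1 := by
      rw [map_pow, ha, map_one, ← Units.val_pow_eq_pow_val, h1, Units.val_one]
    rw [cls_iff, map_pow, map_pow, map_one, map_one] at h2
    exact h2
  obtain ⟨z, hz, hza⟩ := exists_root naq hn0 hroot
  have hz1 : ‖z‖ = 1 := root_norm hn0 hz
  have hlf : z ∈ lf j := by
    apply fixed_mem
    intro τ hτ
    apply root_eq naq (n := n) _ hz hnorm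
    · have h1 : ‖τ z - τ (j (algebraMap (𝓞 F) F a))‖ < 1 := by
        rw [← map_sub, norm_eqv, norm_sub_rev]
        exact hza
      have h2 : τ (j (algebraMap (𝓞 F) F a)) = j (algebraMap (𝓞 F) F a) := hτ _
      rw [h2] at h1
      exact tri_lt naq h1 hza
    · rw [← map_pow, hz, map_one]
  have hord : orderOf z = n := by
    apply Nat.dvd_antisymm
    · exact orderOf_dvd_of_pow_eq_one hz
    · apply hag
      have h1 := pow_cong naq (norm_int j a) hz1.le hza (orderOf z)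
      rwa [pow_orderOf_eq_one] at h1
  refine ⟨z, hlf, hord, hz, fun x hx hxq => ?_⟩
  rcases lt_or_eq_of_le hx with h1 | h1
  · exact Or.inl h1
  right
  have h2 : ‖x ^ n - 1‖ < 1 := by
    have e : x ^ qr j - x = (x ^ n - 1) * x := by
      rw [hnn, pow_succ]; ring
    rw [e, norm_mul, h1, mul_one] at hxq
    exact hxq
  obtain ⟨y, hy, hxy⟩ := exists_root naq hn0 h2
  have : NeZero n := ⟨hn0⟩
  have hprim : IsPrimitiveRoot z n := by
    rw [← hord]
    exact IsPrimitiveRoot.orderOf z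
  obtain ⟨i, -, hi⟩ := hprim.eq_pow_of_pow_eq_one hy
  exact ⟨i, by rw [hi]; exact hxy⟩

end padic

end Pool.Agent.P8H17.UL
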