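import Pool.Agent.P8H17.UL.SI1

/-!
# Project UL: the Frobenius automorphism
-/

set_option autoImplicit false

open NumberField IsDedekindDomain Polynomial

namespace Pool.Agent.P8H17.UL

open Pool.Agent.TH841.NF (pid mem_pid pls lf mem_lf norm_int norm_le_one_of_val)
open Pool.Agent.P8H4.PL.Fr (Gq norm_eqv)
open Pool.Agent.P8H4.PL (fixed_mem approx_int cls_iff mem_Dj gal_of_fix Ram)
open Pool.Agent.P8H4.PK (DD mem_DD fixed_lf)

variable {q : ℕ} [hq : Fact q.Prime]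

/-- the elements of the local field are fixed by the decomposition group -/
lemma DD_fix_lf {F : Type} [Field F] [NumberField F] {j : F →+* PadicAlgCl q}
    {τ : RingAut (PadicAlgCl q)} (hτ : τ ∈ DD j) {x : PadicAlgCl q} (hx : x ∈ lf j) : τ x = x := by
  obtain ⟨ρ, hρ⟩ := Pool.Agent.P8H4.PK.exists_gq τ hτ.1
  have h1 : ρ x = x := by
    apply Pool.Agent.TH841.NF.fix_lf j ρ _ hx
    intro y
    have h2 := hτ.2 y
    rw [← hρ] at h2
    exact h2
  rw [← hρ]
  exact h1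

variable {k K : Type} [Field k] [NumberField k] [Field K] [NumberField K] [Algebra k K]
variable (j : K →+* PadicAlgCl q)

/-- the restriction to `k` -/
noncomputable abbrev r0 (k : Type) {K : Type} [Field k] [Field K] [Algebra k K] (j : K →+* PadicAlgCl q) :
    k →+* PadicAlgCl q := j.comp (algebraMap k K)

lemma pls_under : (pls (r0 k j)).asIdeal = (pls j).asIdeal.under (𝓞 k) := by
  ext x
  rfl

/-- every element of the decomposition group acts on the residues as a power of the Frobenius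
automorphism -/
theorem act_pow [IsGalois k K] (τ : RingAut (PadicAlgCl q)) (hτ : τ ∈ DD (r0 k j)) :
    ∃ i : ℕ, ∀ a : 𝓞 K, ‖τ (j (algebraMap (𝓞 K) K a)) -
      (j (algebraMap (𝓞 K) K a)) ^ (qr (r0 k j) ^ i)‖ < 1 := by
  classical
  obtain ⟨σ, hσ⟩ := gal_of_fix (k := k) τ j (fun x => hτ.2 x)
  set P := (pls j).asIdeal with hP
  set p := (pls (r0 k j)).asIdeal with hp
  have hover : P.LiesOver p := ⟨pls_under j⟩
  have hmaxP : P.IsMaximal := (pls j).isMaximal
  have hmaxp : p.IsMaximal := (pls (r0 k j)).isMaximal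
  let i1 : Field (𝓞 K ⧸ P) := Ideal.Quotient.field _
  let i2 : Field (𝓞 k ⧸ p) := Ideal.Quotient.field _
  have hfP : Finite (𝓞 K ⧸ P) := fin_res j
  have hfp : Finite (𝓞 k ⧸ p) := fin_res (r0 k j)
  let i3 : Fintype (𝓞 k ⧸ p) := Fintype.ofFinite _
  have hj : ∀ a : 𝓞 K, j (algebraMap (𝓞 K) K (σ • a)) = τ (j (algebraMap (𝓞 K) K a)) := by
    intro a
    rw [hσ]
    rfl
  have hle : P ≤ P.comap (MulSemiringAction.toRingHom Gal(K/k) (𝓞 K) σ) := by
    intro a ha
    rw [Ideal.mem_comap]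
    show ‖j (algebraMap (𝓞 K) K (σ • a))‖ < 1
    rw [hj, hτ.1]
    exact ha
  let f0 : (𝓞 K ⧸ P) →+* (𝓞 K ⧸ P) :=
    Ideal.quotientMap P (MulSemiringAction.toRingHom Gal(K/k) (𝓞 K) σ) hle
  let f : (𝓞 K ⧸ P) →ₐ[𝓞 k ⧸ p] (𝓞 K ⧸ P) :=
    { f0 with
      commutes' := by
        intro x
        obtain ⟨a, rfl⟩ := Ideal.Quotient.mk_surjective x
        show f0 (Ideal.Quotient.mk P (algebraMap (𝓞 k) (𝓞 K) a)) =
          Ideal.Quotient.mk P (algebraMap (𝓞 k) (𝓞 K) a)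
        show Ideal.Quotient.mk P (σ • algebraMap (𝓞 k) (𝓞 K) a) = _
        rw [smul_algebraMap] }
  obtain ⟨n, hn⟩ := (FiniteField.bijective_frobeniusAlgHom_pow (𝓞 k ⧸ p) (𝓞 K ⧸ P)).2 f
  refine ⟨n, fun a => ?_⟩
  have h1 : f (Ideal.Quotient.mk P a) = (Ideal.Quotient.mk P a) ^ (qr (r0 k j) ^ (n : ℕ)) := by
    rw [← hn]
    show ((FiniteField.frobeniusAlgHom (𝓞 k ⧸ p) (𝓞 K ⧸ P)) ^ (n : ℕ)) _ = _
    rw [AlgHom.coe_pow, FiniteField.coe_frobeniusAlgHom, pow_iterate]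
    unfold qr
    rw [Nat.card_eq_fintype_card]
  have h2 : Ideal.Quotient.mk P (σ • a) = Ideal.Quotient.mk P (a ^ (qr (r0 k j) ^ (n : ℕ))) := by
    rw [map_pow]
    exact h1
  rw [cls_iff, hj, map_pow, map_pow] at h2
  exact h2

/-- the number of residues -/
theorem qr_pow_rel : ∃ f : ℕ, 0 < f ∧ qr j = qr (r0 k j) ^ f := by
  classical
  set P := (pls j).asIdeal with hP
  set p := (pls (r0 k j)).asIdeal with hp
  have hover : P.LiesOver p := ⟨pls_under j⟩
  have hmaxP : P.IsMaximal := (pls j).isMaximal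
  have hmaxp : p.IsMaximal := (pls (r0 k j)).isMaximal
  let i1 : Field (𝓞 K ⧸ P) := Ideal.Quotient.field _
  let i2 : Field (𝓞 k ⧸ p) := Ideal.Quotient.field _
  have hfP : Finite (𝓞 K ⧸ P) := fin_res j
  have hfp : Finite (𝓞 k ⧸ p) := fin_res (r0 k j)
  let i3 : Fintype (𝓞 k ⧸ p) := Fintype.ofFinite _
  let i4 : Fintype (𝓞 K ⧸ P) := Fintype.ofFinite _
  refine ⟨Module.finrank (𝓞 k ⧸ p) (𝓞 K ⧸ P), Module.finrank_pos, ?_⟩
  have h1 := Module.card_eq_pow_finrank (K := 𝓞 k ⧸ p) (V := 𝓞 K ⧸ P)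
  unfold qr
  rw [Nat.card_eq_fintype_card, Nat.card_eq_fintype_card]
  exact h1

/-- the Frobenius automorphism -/
theorem exists_frob {z : PadicAlgCl q} {n : ℕ} (hn : n.Coprime q) (hz : z ^ n = 1) {F : Type}
    [Field F] [NumberField F] (i : F →+* PadicAlgCl q) : ∃ φ ∈ DD i, φ z = z ^ qr i := by
  classical
  have hn0 : n ≠ 0 := by
    rintro rfl
    rw [Nat.coprime_zero_left] at hn
    exact hq.out.one_lt.ne' hn
  have hnorm : ‖((n : ℕ) : PadicAlgCl q)‖ = 1 := norm_nat hn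
  obtain ⟨r, hr, hQ⟩ := qr_pow i
  -- the orbit
  let O : Set (PadicAlgCl q) := {y | ∃ τ ∈ DD i, y = τ z}
  have hOroot : ∀ y ∈ O, y ^ n = 1 := by
    rintro _ ⟨τ, -, rfl⟩
    rw [← map_pow, hz, map_one]
  have hOfin : O.Finite := by
    have h1 : O ⊆ ((X ^ n - 1 : Polynomial (PadicAlgCl q)).roots.toFinset : Set (PadicAlgCl q)) := by
      intro y hy
      have hne : (X ^ n - 1 : Polynomial (PadicAlgCl q)) ≠ 0 :=
        (monic_X_pow_sub_C (1 : PadicAlgCl q) hn0).ne_zero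
      rw [Finset.mem_coe, Multiset.mem_toFinset, mem_roots hne]
      show eval y (X ^ n - 1) = 0
      rw [eval_sub, eval_pow, eval_X, eval_one, hOroot y hy, sub_self]
    exact (Finset.finite_toSet _).subset h1
  have hO1 : ∀ y ∈ O, ‖y‖ = 1 := fun y hy => root_norm hn0 (hOroot y hy)
  let VV := Pool.Agent.P8H4.PL.Fr.V q
  let O' : Set VV := {y | (y : PadicAlgCl q) ∈ O}
  have hO'fin : O'.Finite := Set.Finite.preimage (Subtype.val_injective.injOn) hOfin
  let s : Finset VV := hO'fin.toFinset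
  have hs : ∀ y : VV, y ∈ s ↔ (y : PadicAlgCl q) ∈ O := fun y => hO'fin.mem_toFinset
  let P : Polynomial VV := ∏ y ∈ s, (X - C y)
  -- the coefficients are fixed
  have hfix : ∀ τ ∈ DD i, ∀ m, τ ((P.coeff m : VV) : PadicAlgCl q) = (P.coeff m : VV) := by
    intro τ hτ m
    have e1 : P.map VV.subtype = ∏ y ∈ s, (X - C ((y : VV) : PadicAlgCl q)) := by
      rw [Polynomial.map_prod]
      refine Finset.prod_congr rfl fun y _ => ?_
      rw [Polynomial.map_sub, map_X, map_C]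
      rfl
    have hmemO : ∀ y ∈ O, τ y ∈ O := by
      rintro _ ⟨ρ, hρ, rfl⟩
      exact ⟨τ * ρ, mul_mem hτ hρ, rfl⟩
    have hmemO' : ∀ y ∈ O, τ.symm y ∈ O := by
      rintro _ ⟨ρ, hρ, rfl⟩
      exact ⟨τ⁻¹ * ρ, mul_mem (inv_mem hτ) hρ, rfl⟩
    have hint : ∀ y ∈ O, y ∈ VV := fun y hy =>
      (Pool.Agent.P8H4.PL.Fr.mem_V _).2 (hO1 y hy).le
    have e2 : (P.map VV.subtype).map (τ : PadicAlgCl q →+* PadicAlgCl q) = P.map VV.subtype := by
      rw [e1, Polynomial.map_prod]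
      refine Finset.prod_bij (fun (y : VV) (hy : y ∈ s) =>
        (⟨τ (y : PadicAlgCl q), hint _ (hmemO _ ((hs y).1 hy))⟩ : VV)) ?_ ?_ ?_ ?_
      · intro y hy
        exact (hs _).2 (hmemO _ ((hs y).1 hy))
      · intro y hy y' hy' h
        have h1 := congrArg (fun t : VV => (t : PadicAlgCl q)) h
        exact Subtype.ext (τ.injective h1)
      · intro y hy
        refine ⟨⟨τ.symm y, hint _ (hmemO' _ ((hs y).1 hy))⟩, (hs _).2 (hmemO' _ ((hs y).1 hy)), ?_⟩
        apply Subtype.ext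
        exact τ.apply_symm_apply _
      · intro y hy
        rw [Polynomial.map_sub, map_X, map_C]
        rfl
    have h3 := congrArg (fun R => Polynomial.coeff R m) e2
    simp only [coeff_map] at h3
    exact h3
  -- the residues of the coefficients
  let ρ := IsLocalRing.residue VV
  have hcoef : ∀ m, (ρ (P.coeff m)) ^ qr i = ρ (P.coeff m) := by
    intro m
    have h1 : ((P.coeff m : VV) : PadicAlgCl q) ∈ lf i := fixed_lf i fun τ hτ => hfix τ hτ m
    have h2 := lf_pow i h1 ((Pool.Agent.P8H4.PL.Fr.mem_V _).1 (P.coeff m).2)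
    have h3 : ρ (P.coeff m ^ qr i - P.coeff m) = 0 := by
      rw [Pool.Agent.P8H4.PL.Fr.res_zero]
      exact h2
    rw [map_sub, map_pow, sub_eq_zero] at h3
    exact h3
  have hz1 : z ∈ VV := (Pool.Agent.P8H4.PL.Fr.mem_V _).2 (root_norm hn0 hz).le
  let z' : VV := ⟨z, hz1⟩
  have hzs : z' ∈ s := (hs _).2 ⟨1, one_mem _, rfl⟩
  have hP0 : eval (ρ z') (P.map ρ) = 0 := by
    rw [eval_map_apply]
    have h1 : eval z' P = 0 := by
      show eval z' (∏ y ∈ s, (X - C y)) = 0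
      rw [eval_prod]
      exact Finset.prod_eq_zero hzs (by rw [eval_sub, eval_X, eval_C, sub_self])
    rw [h1, map_zero]
  have : CharP (IsLocalRing.ResidueField VV) q :=
    inferInstanceAs (CharP (Pool.Agent.P8H4.PL.Fr.κ q) q)
  have hexp : ExpChar (IsLocalRing.ResidueField VV) q := ExpChar.prime hq.out
  let Φ := iterateFrobenius (IsLocalRing.ResidueField VV) q r
  have hΦ : ∀ x, Φ x = x ^ qr i := by
    intro x
    rw [hQ]
    exact iterateFrobenius_def q r x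
  have hmap : (P.map ρ).map Φ = P.map ρ := by
    ext m
    rw [coeff_map, coeff_map, hΦ, hcoef]
  have hzQ : eval ((ρ z') ^ qr i) (P.map ρ) = 0 := by
    rw [← hΦ, ← hmap, eval_map_apply, hP0, map_zero]
  have e4 : eval ((ρ z') ^ qr i) (P.map ρ) = ∏ y ∈ s, ((ρ z') ^ qr i - ρ y) := by
    show eval _ ((∏ y ∈ s, (X - C y)).map ρ) = _
    rw [Polynomial.map_prod, eval_prod]
    refine Finset.prod_congr rfl fun y _ => ?_
    rw [Polynomial.map_sub, map_X, map_C, eval_sub, eval_X, eval_C]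
  rw [e4, Finset.prod_eq_zero_iff] at hzQ
  obtain ⟨y, hy, h5⟩ := hzQ
  obtain ⟨φ, hφ, hφz⟩ := (hs y).1 hy
  refine ⟨φ, hφ, ?_⟩
  rw [← map_pow, ← map_sub, Pool.Agent.P8H4.PL.Fr.res_zero] at h5
  have h6 : ‖z ^ qr i - y‖ < 1 := h5
  rw [hφz] at h6
  refine (root_eq naq (n := n) ?_ ?_ hnorm h6).symm
  · rw [← pow_mul, mul_comm, pow_mul, hz, one_pow]
  · rw [← map_pow, hz, map_one]

end Pool.Agent.P8H17.UL
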