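import Pool.Agent.P8H17.UL.Vec
import Pool.Agent.P8H4.PK.Res
import Pool.Agent.P8H4.PL.Tam

/-!
# Project UL: the statements over number fields
-/

set_option autoImplicit false

open WeierstrassCurve NumberField IsDedekindDomain

namespace Pool.Agent.P8H17.UL

open Pool.Agent.TH841.NF (pls jc)
open Pool.Agent.P8H4.PK (DD)
open Pool.Agent.P8H4.PL (Ram)

section

variable {F : Type} [Field F] [NumberField F]

/-- the equation over the completion -/
noncomputable abbrev cpl (W : WeierstrassCurve (𝓞 F)) (v : HeightOneSpectrum (𝓞 F)) :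
    WeierstrassCurve (v.adicCompletion F) :=
  W.map ((algebraMap F (v.adicCompletion F)).comp (algebraMap (𝓞 F) F))

/-- the points over the completion with nonsingular reduction -/
noncomputable def E0G (W : WeierstrassCurve (𝓞 F)) (v : HeightOneSpectrum (𝓞 F)) :
    AddSubgroup (Pt (cpl W v)) :=
  AddSubgroup.closure {P | ∀ (x y : v.adicCompletion F) (h : (cpl W v).toAffine.Nonsingular x y),
    P = pt h → 1 < Valued.v x ∨
      Valued.v ((cpl W v).a₁ * y - (3 * x ^ 2 + 2 * (cpl W v).a₂ * x + (cpl W v).a₄)) = 1 ∨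
      Valued.v (2 * y + (cpl W v).a₁ * x + (cpl W v).a₃) = 1}

/-- the Tamagawa number (of a minimal equation) -/
noncomputable def tnG (W : WeierstrassCurve (𝓞 F)) (v : HeightOneSpectrum (𝓞 F)) : ℕ :=
  (E0G W v).index

/-- the equation is minimal at the place -/
def MinG (W : WeierstrassCurve (𝓞 F)) (v : HeightOneSpectrum (𝓞 F)) : Prop :=
  ∀ C : VariableChange F, v.valuation F (C • W.map (algebraMap (𝓞 F) F)).a₁ ≤ 1 →
    v.valuation F (C • W.map (algebraMap (𝓞 F) F)).a₂ ≤ 1 →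
    v.valuation F (C • W.map (algebraMap (𝓞 F) F)).a₃ ≤ 1 →
    v.valuation F (C • W.map (algebraMap (𝓞 F) F)).a₄ ≤ 1 →
    v.valuation F (C • W.map (algebraMap (𝓞 F) F)).a₆ ≤ 1 →
    v.valuation F (C • W.map (algebraMap (𝓞 F) F)).Δ ≤
      v.valuation F (W.map (algebraMap (𝓞 F) F)).Δ

end

/-- SI: the situation at a place which is not ramified over `k` -/
def S_SI : Prop := ∀ (q : ℕ) [Fact q.Prime] (k K : Type) [Field k] [NumberField k] [Field K]
  [NumberField K] [Algebra k K] [IsGalois k K] (p n : ℕ), p.Prime → Module.finrank k K = p ^ n →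
  ∀ j : K →+* PadicAlgCl q, ¬ Ram k (pls j) →
    ∃ (φ : DD (j.comp (algebraMap k K))) (m Q : ℕ),
      Sit (DD (j.comp (algebraMap k K))) ((DD j).subgroupOf (DD (j.comp (algebraMap k K)))) φ p m Q

/-- CM: the index in the local field and in the completion -/
def S_CM : Prop := ∀ (q : ℕ) [Fact q.Prime] (F : Type) [Field F] [NumberField F]
  (j : F →+* PadicAlgCl q) (W : WeierstrassCurve (𝓞 F)) (V : WeierstrassCurve (PadicAlgCl q)),
    W.map (j.comp (algebraMap (𝓞 F) F)) = V →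
    ∀ (G : Subgroup (RingAut (PadicAlgCl q))), DD j ≤ G → ∀ (hV : FixW V G)
      (E : AddSubgroup (Pt V)), (∀ P, P ∈ E ↔ NS P) →
        E.relIndex (Fix hV ((DD j).subgroupOf G)) = tnG W (pls j)

/-- MG: minimality at a place which is not ramified over `k` -/
def S_MG : Prop := ∀ (k K : Type) [Field k] [NumberField k] [Field K]
  [NumberField K] [Algebra k K] [IsGalois k K] (p n : ℕ), p.Prime → Module.finrank k K = p ^ n →
  ∀ W : WeierstrassCurve (𝓞 k), W.Δ ≠ 0 → ∀ v : HeightOneSpectrum (𝓞 K), ¬ Ram k v →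
    (MinG (W.map (algebraMap (𝓞 k) (𝓞 K))) v ↔ MinG W (v.under (𝓞 k)))

/-! ## The interface -/

/-- TN: the Tamagawa numbers modulo `p` at a place which is not ramified over `k` -/
def S_TN : Prop := ∀ (k K : Type) [Field k] [NumberField k] [Field K]
  [NumberField K] [Algebra k K] [IsGalois k K] (p n : ℕ), p.Prime → Module.finrank k K = p ^ n →
  ∀ W : WeierstrassCurve (𝓞 k), W.Δ ≠ 0 → ∀ v : HeightOneSpectrum (𝓞 K), ¬ Ram k v →
    (p ∣ tnG (W.map (algebraMap (𝓞 k) (𝓞 K))) v ↔ p ∣ tnG W (v.under (𝓞 k)))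

/-- LP: a local cocycle over `k` which is trivial over `K` is trivial, if `K` is not ramified over `k` and
`p` does not divide the Tamagawa number over `k` -/
def S_LP : Prop := ∀ (q : ℕ) [Fact q.Prime] (k K : Type) [Field k] [NumberField k] [Field K]
  [NumberField K] [Algebra k K] [IsGalois k K] (p n : ℕ), p.Prime → Module.finrank k K = p ^ n →
  ∀ (W : WeierstrassCurve (𝓞 k)), W.Δ ≠ 0 → ∀ (j : K →+* PadicAlgCl q)
    (j0 : k →+* PadicAlgCl q), j.comp (algebraMap k K) = j0 →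
    ∀ (V : WeierstrassCurve (PadicAlgCl q)), W.map (j0.comp (algebraMap (𝓞 k) k)) = V →
    ∀ (hV : ∀ τ ∈ DD j0,
      V.map ((τ : PadicAlgCl q ≃+* PadicAlgCl q) : PadicAlgCl q →+* PadicAlgCl q) = V),
    ¬ Ram k (pls j) → ¬ p ∣ tnG W (pls j0) →
    ∀ c : DD j0 → Pool.Agent.P8H4.PK.Pt V,
      (∀ σ τ, c (σ * τ) = c σ + Pool.Agent.P8H4.PK.T _ hV σ (c τ)) →
      ∀ P : Pool.Agent.P8H4.PK.Pt V, (∀ σ : DD j0, (σ : RingAut (PadicAlgCl q)) ∈ DD j →
        c σ = Pool.Agent.P8H4.PK.T _ hV σ P - P) →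
      ∃ P' : Pool.Agent.P8H4.PK.Pt V, ∀ σ, c σ = Pool.Agent.P8H4.PK.T _ hV σ P' - P'

/-- LV: the same for vectors of points, twisted by the action `R` of a finite quotient of the Galois group
on a lattice -/
def S_LV : Prop := ∀ (q : ℕ) [Fact q.Prime] (k K : Type) [Field k] [NumberField k] [Field K]
  [NumberField K] [Algebra k K] [IsGalois k K] (p n : ℕ), p.Prime → Module.finrank k K = p ^ n →
  ∀ (W : WeierstrassCurve (𝓞 k)), W.Δ ≠ 0 → ∀ (j : K →+* PadicAlgCl q)
    (j0 : k →+* PadicAlgCl q), j.comp (algebraMap k K) = j0 →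
    ∀ (V : WeierstrassCurve (PadicAlgCl q)), W.map (j0.comp (algebraMap (𝓞 k) k)) = V →
    ∀ (hV : FixW V (DD j0)), ¬ Ram k (pls j) → ¬ p ∣ tnG W (pls j0) →
    ∀ (g : ℕ) (R : DD j0 →* GL (Fin g) ℤ), (∀ σ : DD j0,
      (σ : RingAut (PadicAlgCl q)) ∈ DD j → R σ = 1) →
    ∀ c : DD j0 → Fin g → Pt V,
      (∀ σ τ, c (σ * τ) = c σ + tw hV (R σ : Matrix (Fin g) (Fin g) ℤ) σ (c τ)) →
      ∀ P : Fin g → Pt V, (∀ σ : DD j0, (σ : RingAut (PadicAlgCl q)) ∈ DD j →
        ∀ i, c σ i = T hV σ (P i) - P i) →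
      ∃ P' : Fin g → Pt V, ∀ σ, c σ = tw hV (R σ : Matrix (Fin g) (Fin g) ℤ) σ P' - P'

end Pool.Agent.P8H17.UL
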